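import Mathlib

/-!
Closed hyperbolic surfaces as quotients of the upper half plane, the modulus of a family of arcs,
quasiconformal maps (geometric definition) and quasiconformal homogeneity.
-/

namespace Pool.Agent.MP_7dc785_an

open Set MeasureTheory
open scoped UpperHalfPlane MatrixGroups ENNReal

/-- an arc: the image of a compact interval under a continuous injective map -/
def IsArc (α : Set ℍ) : Prop :=
  ∃ (γ : ℝ → ℍ) (a b : ℝ), a < b ∧ ContinuousOn γ (Icc a b) ∧ InjOn γ (Icc a b) ∧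
    α = γ '' Icc a b

/-- `ρ` is a Borel function whose line integral along every rectifiable member of the family is at
least one (arc length is the one dimensional Hausdorff measure of the hyperbolic metric) -/
def Admissible (𝓐 : Set (Set ℍ)) (ρ : ℍ → ℝ≥0∞) : Prop :=
  Measurable ρ ∧ ∀ α ∈ 𝓐, μH[1] α < ⊤ → 1 ≤ ∫⁻ z in α, ρ z ∂μH[1]

/-- the conformal modulus of a family (the integral is taken against hyperbolic area) -/
noncomputable def modulus (𝓐 : Set (Set ℍ)) : ℝ≥0∞ :=
  ⨅ (ρ : ℍ → ℝ≥0∞) (_ : Admissible 𝓐 ρ), ∫⁻ z, ρ z ^ 2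

/-- the geometric definition of a `K`-quasiconformal homeomorphism of the hyperbolic plane -/
def IsQC (K : ℝ) (φ : ℍ ≃ₜ ℍ) : Prop :=
  ∀ 𝓐 : Set (Set ℍ), (∀ α ∈ 𝓐, IsArc α) →
    modulus ((fun α => φ '' α) '' 𝓐) ≤ ENNReal.ofReal K * modulus 𝓐 ∧
      modulus 𝓐 ≤ ENNReal.ofReal K * modulus ((fun α => φ '' α) '' 𝓐)

/-- the quotient of the hyperbolic plane by `Γ` -/
abbrev Surface (Γ : Subgroup SL(2, ℝ)) : Type := MulAction.orbitRel.Quotient Γ ℍ

/-- the covering map -/
noncomputable def proj (Γ : Subgroup SL(2, ℝ)) (z : ℍ) : Surface Γ := Quotient.mk _ z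

/-- `Γ` is discrete, only `± 1` have fixed points and the quotient is compact -/
structure IsClosedSurface (Γ : Subgroup SL(2, ℝ)) : Prop where
  discrete : DiscreteTopology Γ
  free : ∀ γ ∈ Γ, ∀ z : ℍ, γ • z = z → γ = 1 ∨ γ = -1
  compact : CompactSpace (Surface Γ)

/-- any point of the surface is mapped to any other point by a homeomorphism with a
`K`-quasiconformal lift -/
def QCHomogeneous (Γ : Subgroup SL(2, ℝ)) (K : ℝ) : Prop :=
  ∀ x y : Surface Γ, ∃ (f : Surface Γ ≃ₜ Surface Γ) (φ : ℍ ≃ₜ ℍ),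
    IsQC K φ ∧ (∀ z, f (proj Γ z) = proj Γ (φ z)) ∧ f x = y

end Pool.Agent.MP_7dc785_an
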