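import Pool.Agent.MP_7dc785_an.Mg.Count

attribute [-instance] SMulZeroClass.toSMul AddQuantale.instAddLeftMono
  IdemSemiring.toCanonicallyOrderedAdd GradedMonoid.GradeZero.smul NumberField.to_charZero
  IdemSemiring.toMulLeftMono AddQuantale.instAddRightMono RKHS.instFunLike
  IsOrderedMonoid.toMulLeftMono Quantale.instMulRightMono Quantale.instMulLeftMono
  Fintype.decidableForallFintype covariant_swap_mul_of_covariant_mul instCoeHTCOfCoeHeadOfCoeOTC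
  instCoeTCOfCoe Algebra.toSMul instCoeTailIntOfIntCast CanonicallyOrderedAdd.toMulLeftMono
  TestFunctionClass.toDFunLike ContDiffMapSupportedInClass.toDFunLike
  CategoryTheory.CommGrpObj.toGrpObj NonUnitalSeminormedRing.toPseudoMetricSpace Semiring.toMonoid
  MonTypeEquivalenceMon.monMonoid instCoeTOfCoeDep instCoeOutOfCoeFun
  LinearOrderedCommMonoidWithZero.toIsBotZeroClass CommGroup.toDivisionCommMonoid
  Group.IsPerfect.subsingleton_of_isMulCommutative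
  ContinuousMonoidHom.instCoeOutOfMonoidHomClassOfContinuousMapClass Finset.decidableDforallFinset
  NormedRing.toSeminormedRing Array.instDecidableForallForallMemOfDecidablePred
  DenselyNormedField.toNormedField

section

/-!
An order-dynamical lemma: an expanding permutation with an almost fixed point and a small
translation cannot act on a separated subset of the line.
-/

namespace Pool.Agent.MP_7dc785_an

/-- the data of the order-dynamical lemma -/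
structure Sysm {X : Type} (pos : X → ℝ) (R : ℕ → Set X) (N : ℕ) (U A : Equiv.Perm X)
    (τ β α δ : ℝ) : Prop where
  t0 : 0 < τ
  tb : 4 * τ ≤ β
  bN : (1 + β) ^ N ≤ 2
  mono : Monotone R
  stU : ∀ n < N, ∀ x ∈ R n, U x ∈ R (n + 1) ∧ U⁻¹ x ∈ R (n + 1)
  stA : ∀ n < N, ∀ x ∈ R n, A x ∈ R (n + 1) ∧ A⁻¹ x ∈ R (n + 1)
  sep : ∀ x ∈ R N, ∀ y ∈ R N, x ≠ y → δ ≤ |pos x - pos y|
  slU : ∀ x ∈ R N, ∀ y ∈ R N, pos x ≤ pos y →
    (1 + τ) * (pos y - pos x) ≤ pos (U y) - pos (U x) ∧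
      pos (U y) - pos (U x) ≤ (1 + 4 * τ) * (pos y - pos x)
  slA : ∀ x ∈ R N, ∀ y ∈ R N, pos x ≤ pos y →
    pos y - pos x ≤ (1 + β) * (pos (A y) - pos (A x)) ∧
      pos (A y) - pos (A x) ≤ (1 + β) * (pos y - pos x)
  mvA : ∀ x ∈ R N, α / 3 ≤ pos (A x) - pos x ∧ pos (A x) - pos x ≤ 3 * α

/-- `g` costs at most `L` letters -/
def HW {X : Type} (pos : X → ℝ) (R : ℕ → Set X) (N : ℕ) (β : ℝ) (g : Equiv.Perm X) (L : ℕ) :
    Prop :=
  ∀ n, n + L ≤ N → (∀ x ∈ R n, g x ∈ R (n + L)) ∧ ∀ x ∈ R n, ∀ y ∈ R n, pos x ≤ pos y →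
    pos y - pos x ≤ (1 + β) ^ L * (pos (g y) - pos (g x)) ∧
      pos (g y) - pos (g x) ≤ (1 + β) ^ L * (pos y - pos x)

theorem perm_ai {X : Type} (g : Equiv.Perm X) (x : X) : g (g⁻¹ x) = x := g.apply_symm_apply x

theorem perm_ia {X : Type} (g : Equiv.Perm X) (x : X) : g⁻¹ (g x) = x := g.symm_apply_apply x

variable {X : Type} {pos : X → ℝ} {R : ℕ → Set X} {N : ℕ} {U A : Equiv.Perm X} {τ β α δ : ℝ}

theorem HW.one : HW pos R N β 1 0 := fun n _ => ⟨fun x hx => hx, fun x _ y _ _ => by simp⟩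

theorem HW.mul (hβ : 0 ≤ β) {g h : Equiv.Perm X} {L L' : ℕ} (hg : HW pos R N β g L)
    (hh : HW pos R N β h L') : HW pos R N β (g * h) (L' + L) := fun n hn => by
  obtain ⟨h1, h2⟩ := hh n (by omega)
  obtain ⟨g1, g2⟩ := hg (n + L') (by omega)
  refine ⟨fun x hx => by rw [← add_assoc]; exact g1 _ (h1 x hx), fun x hx y hy hxy => ?_⟩
  obtain ⟨a1, a2⟩ := h2 x hx y hy hxy
  have p1 : 0 < (1 + β) ^ L' := by positivity
  have p2 : 0 < (1 + β) ^ L := by positivity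
  have a0 : pos (h x) ≤ pos (h y) := by
    by_contra hc
    linarith only [mul_pos p1 (sub_pos.2 (not_le.1 hc)), hxy, a1]
  obtain ⟨b1, b2⟩ := g2 _ (h1 x hx) _ (h1 y hy) a0
  simp only [Equiv.Perm.mul_apply, pow_add]
  constructor
  · linarith only [mul_le_mul_of_nonneg_left b1 p1.le, a1]
  · linarith only [mul_le_mul_of_nonneg_left a2 p2.le, b2]

theorem HW.le (hβ : 0 ≤ β) (hR : Monotone R) {g : Equiv.Perm X} {L L' : ℕ} (hg : HW pos R N β g L)
    (h : L ≤ L') : HW pos R N β g L' := fun n hn => by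
  obtain ⟨g1, g2⟩ := hg n (by omega)
  refine ⟨fun x hx => hR (by omega) (g1 x hx), fun x hx y hy hxy => ?_⟩
  obtain ⟨a1, a2⟩ := g2 x hx y hy hxy
  have p : (1 + β) ^ L ≤ (1 + β) ^ L' := pow_le_pow_right₀ (by linarith only [hβ]) h
  have p2 : 0 < (1 + β) ^ L := by positivity
  have a0 : 0 ≤ pos (g y) - pos (g x) := by
    by_contra hc
    linarith only [mul_pos p2 (neg_pos.2 (not_le.1 hc)), hxy, a1]
  exact ⟨a1.trans (by gcongr), a2.trans (by gcongr)⟩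

theorem HW.pow (hβ : 0 ≤ β) {g : Equiv.Perm X} (hg : HW pos R N β g 1) (M : ℕ) :
    HW pos R N β (g ^ M) M := by
  induction M with
  | zero => simpa using HW.one
  | succ M ih => rw [pow_succ']; exact hg.mul hβ ih

theorem hw_letter (hβ : 0 ≤ β) (hR : Monotone R) {g : Equiv.Perm X}
    (st : ∀ n < N, ∀ x ∈ R n, g x ∈ R (n + 1) ∧ g⁻¹ x ∈ R (n + 1))
    (sl : ∀ x ∈ R N, ∀ y ∈ R N, pos x ≤ pos y →
      pos y - pos x ≤ (1 + β) * (pos (g y) - pos (g x)) ∧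
        pos (g y) - pos (g x) ≤ (1 + β) * (pos y - pos x)) :
    HW pos R N β g 1 ∧ HW pos R N β g⁻¹ 1 := by
  refine ⟨fun n hn => ⟨fun x hx => (st n (by omega) x hx).1, fun x hx y hy hxy => ?_⟩,
    fun n hn => ⟨fun x hx => (st n (by omega) x hx).2, fun x hx y hy hxy => ?_⟩⟩
  · simpa only [pow_one, tsub_le_iff_right] using sl x (hR (by omega) hx) y (hR (by omega) hy) hxy
  · have hx' := hR hn (st n (by omega) x hx).2
    have hy' := hR hn (st n (by omega) y hy).2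
    rcases le_total (pos (g⁻¹ x)) (pos (g⁻¹ y)) with h | h
    · have := sl _ hx' _ hy' h
      simp only [perm_ai, pow_one] at this ⊢
      exact this.symm
    · have := sl _ hy' _ hx' h
      simp only [perm_ai, pow_one] at this ⊢
      have h3 := mul_nonneg hβ (sub_nonneg.2 hxy)
      have h4 : pos (g⁻¹ x) = pos (g⁻¹ y) := by linarith only [this.1, hxy, h, h3]
      rw [h4] at this ⊢
      constructor <;> linarith only [this.1, h3, hxy]

theorem Sysm.b0 (h : Sysm pos R N U A τ β α δ) : 0 ≤ β := by linarith [h.t0, h.tb]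

theorem Sysm.hU (h : Sysm pos R N U A τ β α δ) : HW pos R N β U 1 ∧ HW pos R N β U⁻¹ 1 :=
  hw_letter h.b0 h.mono h.stU fun x hx y hy hxy => by
    obtain ⟨a, b⟩ := h.slU x hx y hy hxy
    have h1 := h.t0; have h2 := h.tb
    have h3 := mul_nonneg h1.le (sub_nonneg.2 hxy)
    constructor <;> nlinarith only [mul_nonneg h.b0 (sub_nonneg.2 hxy), a, b, h1, h2, hxy]

theorem Sysm.hA (h : Sysm pos R N U A τ β α δ) : HW pos R N β A 1 ∧ HW pos R N β A⁻¹ 1 :=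
  hw_letter h.b0 h.mono h.stA h.slA

theorem Sysm.two (h : Sysm pos R N U A τ β α δ) {g : Equiv.Perm X} {L n : ℕ}
    (hg : HW pos R N β g L) (hn : n + L ≤ N) {x y : X} (hx : x ∈ R n) (hy : y ∈ R n)
    (hxy : pos x ≤ pos y) : pos y - pos x ≤ 2 * (pos (g y) - pos (g x)) ∧
      pos (g y) - pos (g x) ≤ 2 * (pos y - pos x) := by
  obtain ⟨a, b⟩ := ((hg.le h.b0 h.mono (L' := N - n) (by omega)) n (by omega)).2 x hx y hy hxy
  have p : (1 + β) ^ (N - n) ≤ 2 :=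
    (pow_le_pow_right₀ (by linarith only [h.b0]) (by omega)).trans h.bN
  have p2 : 0 < (1 + β) ^ (N - n) := by have := h.b0; positivity
  have a0 : 0 ≤ pos (g y) - pos (g x) := by
    by_contra hc
    linarith only [mul_pos p2 (neg_pos.2 (not_le.1 hc)), hxy, a]
  exact ⟨a.trans (by gcongr), b.trans (by gcongr)⟩

/-- the displacement under `U` -/
def vv (pos : X → ℝ) (U : Equiv.Perm X) (x : X) : ℝ := pos (U x) - pos x

theorem Sysm.vmono (h : Sysm pos R N U A τ β α δ) {x y : X} (hx : x ∈ R N) (hy : y ∈ R N)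
    (hxy : pos x ≤ pos y) : vv pos U x + τ * (pos y - pos x) ≤ vv pos U y ∧
      vv pos U y ≤ vv pos U x + 4 * τ * (pos y - pos x) := by
  obtain ⟨a, b⟩ := h.slU x hx y hy hxy
  unfold vv
  constructor <;> linarith only [a, b]

theorem Sysm.vpow (h : Sysm pos R N U A τ β α δ) {x : X} {n : ℕ} (hx : x ∈ R n)
    (hv : 0 ≤ vv pos U x) (i : ℕ) (hi : n + i ≤ N) :
    i * vv pos U x ≤ pos ((U ^ i) x) - pos x ∧ pos ((U ^ i) x) - pos x ≤ 2 * i * vv pos U x := by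
  induction i with
  | zero => simp
  | succ i ih =>
    obtain ⟨a, b⟩ := ih (by omega)
    have hx1 : x ∈ R (n + 1) := h.mono (by omega) hx
    have hU1 := (h.stU n (by omega) x hx).1
    have hp : pos x ≤ pos (U x) := by unfold vv at hv; linarith only [hv]
    have e : (U ^ (i + 1)) x = (U ^ i) (U x) := by rw [pow_succ]; rfl
    have c := (h.two (h.hU.1.pow h.b0 i) (n := n + 1) (by omega) hx1 hU1 hp).2
    have hxi : (U ^ i) x ∈ R N := h.mono (by omega) (((h.hU.1.pow h.b0 i) n (by omega)).1 x hx)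
    have hle : pos x ≤ pos ((U ^ i) x) := by linarith only [a, b]
    have d := (h.vmono (h.mono (by omega) hx) hxi hle).1
    have e2 : (U ^ (i + 1)) x = U ((U ^ i) x) := by rw [pow_succ']; rfl
    have := mul_nonneg h.t0.le (sub_nonneg.2 hle)
    constructor
    · rw [e2, Nat.cast_succ]; unfold vv at *; linarith only [a, d, this]
    · rw [e, Nat.cast_succ]; unfold vv at *; linarith only [b, c]

theorem Sysm.vinv (h : Sysm pos R N U A τ β α δ) {x : X} {n : ℕ} (hx : x ∈ R n)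
    (hv : 0 ≤ vv pos U x) (i : ℕ) (hi : n + i + 1 ≤ N) :
    vv pos U x ≤ 2 * vv pos U ((U⁻¹ ^ i) x) ∧ vv pos U ((U⁻¹ ^ i) x) ≤ 2 * vv pos U x := by
  have hx1 : x ∈ R (n + 1) := h.mono (by omega) hx
  have hU1 := (h.stU n (by omega) x hx).1
  have hp : pos x ≤ pos (U x) := by unfold vv at hv; linarith only [hv]
  have c := h.two (h.hU.2.pow h.b0 i) (n := n + 1) (by omega) hx1 hU1 hp
  have e : (U⁻¹ ^ i) (U x) = U ((U⁻¹ ^ i) x) := by
    change (U⁻¹ ^ i * U) x = (U * U⁻¹ ^ i) x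
    rw [((Commute.refl U).inv_left.pow_left i).eq]
  rw [e] at c
  exact c

/-- the words obtained by iterated conjugation -/
def wd (U A : Equiv.Perm X) (M : ℕ) : ℕ → Equiv.Perm X
  | 0 => A
  | i + 1 => (wd U A M i)⁻¹ * U ^ M * wd U A M i

theorem Sysm.hwd (h : Sysm pos R N U A τ β α δ) (M i : ℕ) :
    HW pos R N β (wd U A M i) (2 ^ i * (M + 1) - M) ∧
      HW pos R N β (wd U A M i)⁻¹ (2 ^ i * (M + 1) - M) := by
  induction i with
  | zero => simpa only [wd, pow_zero, one_mul, add_tsub_cancel_left] using h.hA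
  | succ i ih =>
    have hp : M + 1 ≤ 2 ^ i * (M + 1) := Nat.le_mul_of_pos_left _ (by positivity)
    have e : 2 ^ (i + 1) * (M + 1) - M =
        2 ^ i * (M + 1) - M + (M + (2 ^ i * (M + 1) - M)) := by
      rw [pow_succ, mul_right_comm]; omega
    rw [e]
    constructor
    · exact (ih.2.mul h.b0 (h.hU.1.pow h.b0 M)).mul h.b0 ih.1
    · have : (wd U A M (i + 1))⁻¹ = (wd U A M i)⁻¹ * U⁻¹ ^ M * wd U A M i := by
        simp only [wd, mul_assoc, mul_inv_rev, inv_inv, inv_pow]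
      rw [this]
      exact (ih.2.mul h.b0 (h.hU.2.pow h.b0 M)).mul h.b0 ih.1

theorem Sysm.shrink (h : Sysm pos R N U A τ β α δ) {W : Equiv.Perm X} {L M n : ℕ}
    (h1 : HW pos R N β W L) (h2 : HW pos R N β W⁻¹ L) (hn : n + 2 * L + M ≤ N) {q : X}
    (hq : q ∈ R n) (hv : 0 ≤ vv pos U q) (hy : pos q ≤ pos (W q)) :
    M * τ * (pos (W q) - pos q) ≤ 2 * (pos ((W⁻¹ * U ^ M * W) q) - pos q) ∧
      pos ((W⁻¹ * U ^ M * W) q) - pos q ≤
        4 * M * (vv pos U q + 4 * τ * (pos (W q) - pos q)) := by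
  have hx := (h1 n (by omega)).1 q hq
  obtain ⟨a, b⟩ := h.vmono (h.mono (by omega) hq) (h.mono (by omega) hx) hy
  have p := mul_nonneg h.t0.le (sub_nonneg.2 hy)
  obtain ⟨c, d⟩ := h.vpow hx (by linarith only [hv, a, b]) M (by omega)
  have hM : (0 : ℝ) ≤ M := Nat.cast_nonneg M
  have hx2 := ((h.hU.1.pow h.b0 M) (n + L) (by omega)).1 _ hx
  have q1 := mul_le_mul_of_nonneg_left a hM
  have q2 := mul_le_mul_of_nonneg_left b hM
  have q3 := mul_nonneg hM hv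
  obtain ⟨e, f⟩ := h.two h2 (n := n + L + M) (by omega) (h.mono (by omega) hx) hx2
    (by linarith only [c, d])
  simp only [perm_ia, Equiv.Perm.mul_apply] at e f ⊢
  constructor <;> linarith only [c, q1, q3, e, d, q2, f]

theorem Sysm.march (h : Sysm pos R N U A τ β α δ) {W : Equiv.Perm X} {L M n : ℕ}
    (h1 : HW pos R N β W L) (h2 : HW pos R N β W⁻¹ L) (hn : n + (2 * L + 4 * M + 2) ≤ N) {q : X}
    (hq : q ∈ R n) (hv : 0 < vv pos U q) (hτ : 1 ≤ 400⁻¹ * (M ^ 2 * τ)) (hM : 20 * (M * τ) ≤ 1)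
    (y1 : vv pos U q ≤ 2 * M * τ ^ 2 * (pos (W q) - pos q))
    (y2 : M ^ 2 * τ ^ 3 * (pos (W q) - pos q) ≤ vv pos U q) :
    ∃ z ∈ R (n + (2 * L + 4 * M + 2)), 0 < vv pos U z ∧ vv pos U z ≤ vv pos U q / 2 := by
  have t0 := h.t0
  have hM0 : (0 : ℝ) < M := by
    rcases Nat.eq_zero_or_pos M with rfl | h0
    · norm_num at hτ
    · exact_mod_cast h0
  have hM1 : (1 : ℝ) ≤ M := by exact_mod_cast (Nat.cast_pos.1 hM0)
  have hy : 0 < pos (W q) - pos q := by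
    by_contra hc
    linarith only [mul_nonneg (show 0 ≤ 2 * M * τ ^ 2 by positivity) (neg_nonneg.2 (not_lt.1 hc)), hv, y1]
  have hx := (h1 n (by omega)).1 q hq
  obtain ⟨a, b⟩ := h.vmono (h.mono (by omega) hq) (h.mono (by omega) hx) (by linarith only [hy])
  have p := mul_pos t0 hy
  have y3 : 400 * (τ ^ 2 * (pos (W q) - pos q)) ≤ vv pos U q := by
    linarith only [mul_le_mul_of_nonneg_left hτ (mul_pos t0 p).le, y2]
  have t1 : 20 * τ ≤ 1 := by nlinarith only [hτ, hM]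
  have mem : ∀ i ≤ 4 * M + 1, (U⁻¹ ^ i) (W q) ∈ R (n + L + (4 * M + 1)) := fun i hi =>
    h.mono (by omega) (((h.hU.2.pow h.b0 i) (n + L) (by omega)).1 _ hx)
  have mem2 : ∀ i ≤ 4 * M + 1, W⁻¹ ((U⁻¹ ^ i) (W q)) ∈ R (n + (2 * L + 4 * M + 2)) := fun i hi =>
    h.mono (by omega) ((h2 _ (by omega)).1 _ (mem i hi))
  have key : ∀ i ≤ 4 * M + 1, (∃ z ∈ R (n + (2 * L + 4 * M + 2)), 0 < vv pos U z ∧
      vv pos U z ≤ vv pos U q / 2) ∨ (vv pos U q / 2 < vv pos U (W⁻¹ ((U⁻¹ ^ i) (W q))) ∧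
        vv pos U (W⁻¹ ((U⁻¹ ^ i) (W q))) ≤
          vv pos U q - i * (τ ^ 2 * (pos (W q) - pos q) / 4)) := fun i hi => by
    induction i with
    | zero => right; simp only [pow_zero, Equiv.Perm.coe_one, id_eq, Equiv.Perm.coe_inv, Equiv.symm_apply_apply, half_lt_self_iff, CharP.cast_eq_zero, zero_mul, sub_zero, Std.le_refl, and_true]; linarith only [hv]
    | succ i ih =>
      rcases ih (by omega) with ih | ⟨i1, i2⟩
      · exact Or.inl ih
      obtain ⟨c, d⟩ := h.vinv hx (by linarith only [hv, a, p]) (i + 1) (by omega)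
      have e : U ((U⁻¹ ^ (i + 1)) (W q)) = (U⁻¹ ^ i) (W q) := by
        rw [pow_succ']; simp only [inv_pow, Equiv.Perm.coe_mul, Equiv.Perm.coe_inv, Function.comp_apply, Equiv.apply_symm_apply]
      have e2 : vv pos U ((U⁻¹ ^ (i + 1)) (W q)) =
          pos ((U⁻¹ ^ i) (W q)) - pos ((U⁻¹ ^ (i + 1)) (W q)) := by rw [vv, e]
      rw [e2] at c d
      obtain ⟨f, g⟩ := h.two h2 (n := n + L + (4 * M + 1)) (by omega) (mem (i + 1) hi)
        (mem i (by omega)) (by linarith only [hv, a, p, c])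
      obtain ⟨k1, k2⟩ := h.vmono (h.mono hn (mem2 (i + 1) hi)) (h.mono hn (mem2 i (by omega)))
        (by linarith only [hv, a, p, c, f])
      have k3 := mul_le_mul_of_nonneg_left (show pos (W⁻¹ ((U⁻¹ ^ i) (W q))) -
        pos (W⁻¹ ((U⁻¹ ^ (i + 1)) (W q))) ≤ 4 * (vv pos U q + 4 * τ * (pos (W q) - pos q)) by
          linarith only [b, d, g]) t0.le
      have k4 := mul_le_mul_of_nonneg_left (show τ * (pos (W q) - pos q) / 4 ≤
        pos (W⁻¹ ((U⁻¹ ^ i) (W q))) - pos (W⁻¹ ((U⁻¹ ^ (i + 1)) (W q))) by linarith only [hv, a, c, f]) t0.le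
      have k5 : τ * vv pos U q ≤ vv pos U q / 400 := by
        have : 400 * τ ≤ 1 := by nlinarith only [hτ, hM]
        nlinarith only [hv, hM, y1, y3]
      rcases le_or_gt (vv pos U (W⁻¹ ((U⁻¹ ^ (i + 1)) (W q)))) (vv pos U q / 2) with k | k
      · exact Or.inl ⟨_, mem2 _ hi, by linarith only [hv, y3, i1, k2, k3, k5], k⟩
      · refine Or.inr ⟨k, ?_⟩
        rw [Nat.cast_succ]
        linarith only [i2, k1, k4]
  rcases key _ le_rfl with k | ⟨k1, k2⟩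
  · exact k
  · rw [show ((4 * M + 1 : ℕ) : ℝ) = 4 * M + 1 by push_cast; ring] at k2
    linarith only [mul_pos t0 p, y1, k1, k2]

theorem Sysm.halve (h : Sysm pos R N U A τ β α δ) {M j n : ℕ}
    (hn : n + (2 * (2 ^ j * (M + 1)) + 4 * M + 2) ≤ N) {q : X} (hq : q ∈ R n)
    (hv : 0 < vv pos U q) (hτ : 1 ≤ 400⁻¹ * (M ^ 2 * τ)) (hM : 20 * (M * τ) ≤ 1)
    (hα : 3 * vv pos U q ≤ M ^ 2 * τ ^ 3 * α) (hj : (20 * (M * τ)) ^ j * (3 * α) < δ) :
    ∃ z ∈ R (n + (2 * (2 ^ j * (M + 1)) + 4 * M + 2)),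
      0 < vv pos U z ∧ vv pos U z ≤ vv pos U q / 2 := by
  have t0 := h.t0
  have hM0 : (0 : ℝ) < M := by
    rcases Nat.eq_zero_or_pos M with rfl | h0
    · norm_num at hτ
    · exact_mod_cast h0
  have hM1 : (1 : ℝ) ≤ M := by exact_mod_cast (Nat.cast_pos.1 hM0)
  have hs : 0 < M * τ := by positivity
  have t1 : τ ≤ M * τ := by nlinarith only [hτ, hM]
  have hP : 0 < 2 ^ j * (M + 1) := by positivity
  have hqN : q ∈ R N := h.mono (by omega) hq
  have hδ : δ ≤ vv pos U q := by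
    have := h.sep _ (h.mono (by omega) (h.stU n (by omega) q hq).1) q hqN fun e => by
      simp [vv, e] at hv
    exact this.trans_eq (abs_of_pos hv)
  obtain ⟨a1, a2⟩ := h.mvA q hqN
  have hw : ∀ i ≤ j, HW pos R N β (wd U A M i) (2 ^ j * (M + 1)) ∧
      HW pos R N β (wd U A M i)⁻¹ (2 ^ j * (M + 1)) := fun i hi => by
    have : 2 ^ i * (M + 1) - M ≤ 2 ^ j * (M + 1) :=
      (Nat.sub_le _ _).trans (Nat.mul_le_mul_right _ (Nat.pow_le_pow_right two_pos hi))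
    exact ⟨(h.hwd M i).1.le h.b0 h.mono this, (h.hwd M i).2.le h.b0 h.mono this⟩
  have s3 : (M : ℝ) ^ 2 * τ ^ 3 = (M * τ) ^ 2 * τ := by ring
  have s4 : (M : ℝ) ^ 2 * τ ^ 3 ≤ M * τ ^ 2 := by nlinarith [mul_pos hs (mul_pos t0 t0)]
  have s5 : (M : ℝ) ^ 2 * τ ^ 3 ≤ τ := by nlinarith only [t0, s4]
  have key : ∀ i ≤ j, (∃ z ∈ R (n + (2 * (2 ^ j * (M + 1)) + 4 * M + 2)), 0 < vv pos U z ∧
      vv pos U z ≤ vv pos U q / 2) ∨ (vv pos U q ≤ M ^ 2 * τ ^ 3 * (pos (wd U A M i q) - pos q) ∧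
        pos (wd U A M i q) - pos q ≤ (20 * (M * τ)) ^ i * (3 * α)) := fun i hi => by
    induction i with
    | zero =>
      right
      simp only [wd, pow_zero, one_mul]
      exact ⟨by linarith only [mul_le_mul_of_nonneg_left a1 (show 0 ≤ M ^ 2 * τ ^ 3 by positivity), hα], a2⟩
    | succ i ih =>
      rcases ih (by omega) with ih | ⟨i1, i2⟩
      · exact Or.inl ih
      have hy : 0 < pos (wd U A M i q) - pos q := by
        by_contra hc
        linarith only [mul_nonneg (show 0 ≤ M ^ 2 * τ ^ 3 by positivity) (neg_nonneg.2 (not_lt.1 hc)), hv, i1]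
      obtain ⟨b1, b2⟩ := h.shrink (M := M) (hw i (by omega)).1 (hw i (by omega)).2 (by omega) hq hv.le
        (by linarith only [hy])
      change _ ≤ 2 * (pos (wd U A M (i + 1) q) - pos q) at b1
      change pos (wd U A M (i + 1) q) - pos q ≤ _ at b2
      rcases le_total (M ^ 2 * τ ^ 3 * (pos (wd U A M (i + 1) q) - pos q)) (vv pos U q) with k | k
      · refine Or.inl (h.march (hw _ hi).1 (hw _ hi).2 hn hq hv hτ hM ?_ k)
        linarith only [mul_le_mul_of_nonneg_left b1 (show 0 ≤ M * τ ^ 2 by positivity), i1]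
      · refine Or.inr ⟨k, b2.trans ?_⟩
        have c1 := mul_le_mul_of_nonneg_right s5 hy.le
        have c2 := mul_le_mul_of_nonneg_left i2 hs.le
        rw [pow_succ]
        linarith only [mul_le_mul_of_nonneg_left (i1.trans c1) hM0.le, c2]
  rcases key j le_rfl with k | ⟨k1, k2⟩
  · exact k
  · have hy : 0 ≤ pos (wd U A M j q) - pos q := by
      by_contra hc
      linarith only [mul_nonneg (show 0 ≤ M ^ 2 * τ ^ 3 by positivity) (neg_pos.2 (not_le.1 hc)).le, hv, k1]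
    linarith only [mul_le_mul_of_nonneg_right (s5.trans (show τ ≤ 1 by linarith only [hM, hs, t1])) hy, hj, hδ, k1, k2]

theorem Sysm.false (h : Sysm pos R N U A τ β α δ) {M j k : ℕ}
    (hN : 4 + k * (2 * (2 ^ j * (M + 1)) + 4 * M + 2) ≤ N) {q : X} (hq : q ∈ R 0)
    (hv : |vv pos U q| ≤ τ ^ 2 * α / 20) (hα : 0 < α) (hτ : 1 ≤ 400⁻¹ * (M ^ 2 * τ))
    (hM : 20 * (M * τ) ≤ 1) (hj : (20 * (M * τ)) ^ j * (3 * α) < δ)
    (hk : 105 * τ ^ 2 * α < 2 ^ k * δ) : False := by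
  have t0 := h.t0
  have hM1 : (1 : ℝ) ≤ M := by
    rcases Nat.eq_zero_or_pos M with rfl | h0
    · norm_num at hτ
    · exact_mod_cast h0
  have t1 : 20 * τ ≤ 1 := by nlinarith only [hτ, hM]
  obtain ⟨v1, v2⟩ := abs_le.1 hv
  have hqN : q ∈ R N := h.mono (by omega) hq
  obtain ⟨a1, a2⟩ := h.mvA q hqN
  have hx := (h.stA 0 (by omega) q hq).1
  obtain ⟨b1, b2⟩ := h.vmono hqN (h.mono (by omega) hx) (by linarith only [hα, a1])
  have hx2 := (h.stU 1 (by omega) _ hx).1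
  have p1 := mul_pos t0 hα
  have p2 := mul_pos t0 p1
  have c1 : τ * α / 4 ≤ vv pos U (A q) := by nlinarith only [hM, t0, hM1, v1, v2, a1, b1, p1]
  have c2 : vv pos U (A q) ≤ 13 * (τ * α) := by nlinarith only [hM, t0, hM1, v1, v2, a2, b2, p1]
  obtain ⟨d1, d2⟩ := h.two h.hA.2 (n := 2) (by omega) (h.mono (by omega) hx) hx2
    (by unfold vv at c1; linarith only [p1, c1])
  simp only [perm_ia] at d1 d2
  have hx3 := (h.stA 2 (by omega) _ hx2).2
  change vv pos U (A q) ≤ _ at d1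
  change _ ≤ 2 * vv pos U (A q) at d2
  obtain ⟨e1, e2⟩ := h.vmono hqN (h.mono (by omega) hx3) (by linarith only [p1, c1, d1])
  have key : ∀ i ≤ k, ∃ z ∈ R (3 + i * (2 * (2 ^ j * (M + 1)) + 4 * M + 2)), 0 < vv pos U z ∧
      2 ^ i * vv pos U z ≤ 105 * τ ^ 2 * α := fun i hi => by
    induction i with
    | zero => exact ⟨A⁻¹ (U (A q)), by rw [zero_mul]; exact hx3, by nlinarith only [hτ, v1, p1, c1, d1, e1], by nlinarith only [hτ, v2, p1, c2, d2, e2]⟩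
    | succ i ih =>
      obtain ⟨z, z1, z2, z3⟩ := ih (by omega)
      have hi2 := Nat.mul_le_mul_right (2 * (2 ^ j * (M + 1)) + 4 * M + 2) hi
      have : (1 : ℝ) ≤ 2 ^ i := one_le_pow₀ one_le_two
      obtain ⟨w, w1, w2, w3⟩ := h.halve (M := M) (j := j) (by rw [add_mul] at hi2; omega) z1 z2 hτ hM
        (by nlinarith only [mul_le_mul_of_nonneg_left hτ p2.le, z2, z3, this]) hj
      refine ⟨w, by rw [add_mul, one_mul, ← add_assoc]; exact w1, w2, ?_⟩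
      rw [pow_succ]
      nlinarith only [v1, v2, z3, w2, w3]
  obtain ⟨z, z1, z2, z3⟩ := key k le_rfl
  have := h.sep _ (h.mono (by omega) (h.stU _ (by omega) z z1).1) z (h.mono (by omega) z1)
    fun e => by simp [vv, e] at z2
  replace this : δ ≤ vv pos U z := this.trans_eq (abs_of_pos z2)
  linarith only [mul_le_mul_of_nonneg_left this (show (0 : ℝ) ≤ 2 ^ k by positivity), hk, z3]

end Pool.Agent.MP_7dc785_an

end

section

/-!
Almost isometries of the hyperbolic plane: trilateration in hyperboloid coordinates.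
-/

namespace Pool.Agent.MP_7dc785_an

open Set Metric UpperHalfPlane
open scoped MatrixGroups

/-- distances are preserved up to a small additive and multiplicative error -/
def QI (e : ℝ) (φ : ℍ → ℍ) : Prop := ∀ a b, |dist (φ a) (φ b) - dist a b| ≤ e * (1 + dist a b)

theorem qi_half {e : ℝ} (he : 0 ≤ e) (he1 : e ≤ 1) {φ φ' : ℍ → ℍ} (hi : ∀ z, φ (φ' z) = z)
    (hi' : ∀ z, φ' (φ z) = z)
    (h1 : ∀ z w l, 1 ≤ l → dist z w ≤ l → dist (φ z) (φ w) ≤ l * (1 + e))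
    (h2 : ∀ z w l, 1 ≤ l → dist z w ≤ l → dist (φ' z) (φ' w) ≤ l * (1 + e)) (a b : ℍ) :
    dist (φ' a) (φ' b) ≤ dist a b + 6 * e * (1 + dist a b) := by
  have d0 : 0 ≤ dist a b := dist_nonneg
  obtain ⟨g, g1, g2⟩ := exists_norm (φ' a) (φ' b)
  have t0 : 0 ≤ dist (φ' a) (φ' b) := dist_nonneg
  have e1 : dist (g • ax (-2)) (φ' a) = 2 := by
    rw [← g1, dist_smul, ← ax_zero, dist_ax]; norm_num
  have e2 : dist (g • ax (-2)) (φ' b) = 2 + dist (φ' a) (φ' b) := by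
    nth_rw 1 [← g2]
    rw [dist_smul, dist_ax, abs_of_nonpos (by linarith)]; ring
  have a1 := h1 _ _ 2 (by norm_num) e1.le
  rw [hi] at a1
  have a3 := h2 (φ (g • ax (-2))) b (2 * (1 + e) + dist a b) (by linarith only [he, d0])
    (by linarith [dist_triangle (φ (g • ax (-2))) a b])
  rw [hi', e2] at a3
  nlinarith only [mul_nonneg he d0, he, he1, a3]

theorem qi_of_qc : ∃ C > 0, ∀ ε > 0, C * ε ≤ 1 → ∀ φ : ℍ ≃ₜ ℍ, IsQC (1 + ε) φ →
    QI (C * ε) φ := by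
  obtain ⟨C, hC, H⟩ := qc_dist one_pos
  refine ⟨12 * C, by positivity, fun ε hε h1 φ hφ a b => ?_⟩
  have p : 0 < C * ε := by positivity
  have k1 := H ε hε (by linarith) φ hφ
  have k2 := H ε hε (by linarith) φ.symm hφ.symm
  have a1 := qi_half p.le (by linarith) φ.symm_apply_apply φ.apply_symm_apply k2 k1 a b
  have a2 := qi_half p.le (by linarith) φ.apply_symm_apply φ.symm_apply_apply k1 k2 (φ a) (φ b)
  rw [φ.symm_apply_apply, φ.symm_apply_apply] at a2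
  have d0 : 0 ≤ dist a b := dist_nonneg
  have d1 : 0 ≤ dist (φ a) (φ b) := dist_nonneg
  rw [abs_le]
  constructor
  · rcases le_total (dist a b) (dist (φ a) (φ b)) with h | h
    · linarith only [a1, h]
    · linarith only [mul_le_mul_of_nonneg_left h p.le, a1, a2]
  · linarith only [mul_nonneg p.le d0, p, a1]

theorem QI.le {e : ℝ} {φ : ℍ → ℍ} (h : QI e φ) (he : 0 ≤ e) {a b : ℍ} {T : ℝ} (hT : dist a b ≤ T) :
    |dist (φ a) (φ b) - dist a b| ≤ e * (1 + T) := (h a b).trans (by gcongr)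

theorem QI.ub {e : ℝ} {φ : ℍ → ℍ} (h : QI e φ) (he : 0 ≤ e) {a b : ℍ} {T : ℝ} (hT : dist a b ≤ T) :
    dist (φ a) (φ b) ≤ T + e * (1 + T) := by linarith [(abs_le.1 (h.le he hT)).2]

theorem QI.mono {e e' : ℝ} {φ : ℍ → ℍ} (h : QI e φ) (he : e ≤ e') : QI e' φ := fun a b =>
  (h a b).trans (by gcongr)

theorem QI.comp {e : ℝ} {φ ψ : ℍ → ℍ} (he : 0 ≤ e) (he1 : e ≤ 1) (h : QI e φ) (h' : QI e ψ) :
    QI (4 * e) (fun z => φ (ψ z)) := fun a b => by
  obtain ⟨a1, a2⟩ := abs_le.1 (h (ψ a) (ψ b))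
  obtain ⟨b1, b2⟩ := abs_le.1 (h' a b)
  have d0 : 0 ≤ dist a b := dist_nonneg
  have p := mul_nonneg he d0
  have c : dist (ψ a) (ψ b) ≤ 1 + 2 * dist a b := by nlinarith only [he1, b2, d0]
  have := mul_le_mul_of_nonneg_left c he
  rw [abs_le]
  constructor <;> linarith only [a1, b1, b2, this, a2]

theorem QI.smul {e : ℝ} {φ : ℍ → ℍ} (h : QI e φ) (g k : SL(2, ℝ)) :
    QI e (fun z => g • φ (k • z)) := fun a b => by
  simpa only [dist_smul] using h (k • a) (k • b)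

theorem cosh_close {a b η : ℝ} (h : |a - b| ≤ η) (h1 : η ≤ 1) :
    |Real.cosh a - Real.cosh b| ≤ 2 * η * Real.cosh b := by
  obtain ⟨h2, h3⟩ := abs_le.1 h
  have h0 : 0 ≤ η := (abs_nonneg _).trans h
  have e1 : Real.exp η ≤ 1 + 2 * η := by
    have := Real.abs_exp_sub_one_le (x := η) (by rwa [abs_of_nonneg h0])
    rw [abs_of_nonneg h0] at this
    linarith [(abs_le.1 this).2]
  have e2 : 1 - η ≤ Real.exp (-η) := by linarith [Real.add_one_le_exp (-η)]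
  have k : ∀ x y : ℝ, x ≤ y + η → y ≤ x + η →
      Real.exp x ≤ Real.exp y * (1 + 2 * η) ∧ Real.exp y * (1 - η) ≤ Real.exp x := fun x y p q => by
    have := Real.exp_pos y
    constructor
    · exact (Real.exp_le_exp.2 p).trans (by rw [Real.exp_add]; gcongr)
    · refine le_trans ?_ (Real.exp_le_exp.2 (show y + -η ≤ x by linarith))
      rw [Real.exp_add]; gcongr
  obtain ⟨k1, k2⟩ := k a b (by linarith) (by linarith)
  obtain ⟨k3, k4⟩ := k (-a) (-b) (by linarith) (by linarith)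
  have := mul_nonneg h0 (Real.exp_pos b).le
  have := mul_nonneg h0 (Real.exp_pos (-b)).le
  rw [Real.cosh_eq, Real.cosh_eq, abs_le]
  constructor <;> linarith only [k1, k2, k3, k4]

/-- hyperboloid coordinates -/
noncomputable def xa (z : ℍ) : ℝ := 1 / z.im
/-- hyperboloid coordinates -/
noncomputable def xb (z : ℍ) : ℝ := z.re / z.im
/-- hyperboloid coordinates -/
noncomputable def xc (z : ℍ) : ℝ := (z.re ^ 2 + z.im ^ 2) / z.im

theorem cosh_X (z w : ℍ) :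
    Real.cosh (dist z w) = (xa z * xc w + xc z * xa w) / 2 - xb z * xb w := by
  have := z.im_pos; have := w.im_pos
  rw [cosh_dist', xa, xa, xb, xb, xc, xc]; field_simp; ring

theorem x_rel (z : ℍ) : xa z * xc z = 1 + xb z ^ 2 := by
  have := z.im_pos
  rw [xa, xb, xc]; field_simp; ring

theorem xa_pos (z : ℍ) : 0 < xa z := one_div_pos.2 z.im_pos

theorem xc_pos (z : ℍ) : 0 < xc z := by
  have := z.im_pos
  unfold xc; positivity

/-- a reference point -/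
def pb : ℍ := pt 0 2 two_pos
/-- a reference point -/
def pc : ℍ := pt 1 1 one_pos

theorem c_a (z : ℍ) : Real.cosh (dist z I) = (xa z + xc z) / 2 := by
  rw [cosh_X]; simp [xa, xb, xc]

theorem c_b (z : ℍ) : Real.cosh (dist z pb) = xa z + xc z / 4 := by
  rw [cosh_X]; simp only [xa, one_div, xc, pb, pt_re, ne_eq, OfNat.ofNat_ne_zero, not_false_eq_true, zero_pow, pt_im, zero_add, xb, zero_div, mul_zero, sub_zero]; ring

theorem c_c (z : ℍ) : Real.cosh (dist z pc) = xa z + xc z / 2 - xb z := by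
  rw [cosh_X]; simp only [xa, one_div, xc, pc, pt_re, one_pow, pt_im, div_one, ne_eq, one_ne_zero, not_false_eq_true, div_self, mul_one, xb, sub_left_inj]; ring

theorem sq_le_cosh (d : ℝ) : d ^ 2 ≤ 2 * (Real.cosh d - 1) := by
  have h := Real.cosh_two_mul (d / 2)
  rw [mul_div_cancel₀ _ two_ne_zero, Real.cosh_sq] at h
  have : (d / 2) ^ 2 ≤ Real.sinh (d / 2) ^ 2 := by
    rw [sq_le_sq, Real.abs_sinh, abs_of_nonneg (abs_nonneg _) |>.symm]
    rw [abs_abs]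
    exact Real.self_le_sinh_iff.2 (abs_nonneg (d / 2))
  linarith only [h, this]

theorem dist_le_X {z w : ℍ} {B : ℝ} (h1 : |xa z - xa w| ≤ B) (h2 : |xb z - xb w| ≤ B)
    (h3 : |xc z - xc w| ≤ B) : dist z w ≤ 2 * B := by
  have hB : 0 ≤ B := (abs_nonneg _).trans h1
  have e : 2 * (Real.cosh (dist z w) - 1) = (xb z - xb w) ^ 2 - (xa z - xa w) * (xc z - xc w) := by
    rw [cosh_X]; linear_combination x_rel z + x_rel w
  have a := sq_le_cosh (dist z w)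
  have b := mul_le_mul h1 h3 (abs_nonneg _) hB
  rw [← abs_mul] at b
  have c := sq_le_sq' (abs_le.1 h2).1 (abs_le.1 h2).2
  exact abs_le_of_sq_le_sq' (by nlinarith only [neg_abs_le ((xa z - xa w) * (xc z - xc w)), e, a, b, c])
    (by linarith only [hB]) |>.2

theorem le_one_of_cosh {d : ℝ} (h : Real.cosh d ≤ 3 / 2) : d ≤ 1 := by
  nlinarith [sq_le_cosh d]

theorem pb_I : dist pb I ≤ 1 := le_one_of_cosh (by rw [c_a]; norm_num [xa, xc, pb])

theorem pc_I : dist pc I ≤ 1 := le_one_of_cosh (by rw [c_a]; norm_num [xa, xc, pc])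

theorem ref_close {e e1 T : ℝ} {ψ : ℍ → ℍ} (h : QI e ψ) (he : 0 ≤ e) {p P : ℍ} (hp : dist p I ≤ 1)
    (h1 : dist (ψ p) p ≤ e1) (hP : dist P I ≤ T) (hη : e1 + e * (T + 2) ≤ 1) :
    |Real.cosh (dist (ψ P) p) - Real.cosh (dist P p)| ≤
      2 * (e1 + e * (T + 2)) * Real.cosh (dist P p) := by
  refine cosh_close ?_ hη
  have a := abs_le.1 (h.le he (a := P) (b := p) (T := T + 1)
    (by linarith [dist_triangle_right P p I]))
  have b := abs_le.1 ((abs_dist_sub_le (ψ p) p (ψ P)).trans h1)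
  rw [dist_comm (ψ p), dist_comm p] at b
  rw [abs_le]
  constructor <;> linarith only [a.1, a.2, b.1, b.2]

theorem tri {e e1 T : ℝ} {ψ : ℍ → ℍ} (h : QI e ψ) (he : 0 ≤ e) (h1 : dist (ψ I) I ≤ e1)
    (h2 : dist (ψ pb) pb ≤ e1) {P : ℍ} (hP : dist P I ≤ T) (hη : e1 + e * (T + 2) ≤ 1) :
    |xa (ψ P) - xa P| ≤ 16 * (e1 + e * (T + 2)) * Real.cosh (dist P I) ∧
    |xc (ψ P) - xc P| ≤ 16 * (e1 + e * (T + 2)) * Real.cosh (dist P I) ∧
    (dist (ψ pc) pc ≤ e1 →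
      |xb (ψ P) - xb P| ≤ 30 * (e1 + e * (T + 2)) * Real.cosh (dist P I)) := by
  have a := abs_le.1 (ref_close h he (by simp) h1 hP hη)
  have b := abs_le.1 (ref_close h he pb_I h2 hP hη)
  have h0 : 0 ≤ e1 + e * (T + 2) := by
    have := dist_nonneg.trans h1; have := dist_nonneg.trans hP; positivity
  have c := fun h3 : dist (ψ pc) pc ≤ e1 => abs_le.1 (ref_close h he pc_I h3 hP hη)
  generalize e1 + e * (T + 2) = η at *
  have p1 := mul_nonneg h0 (xa_pos P).le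
  have p2 := mul_nonneg h0 (xc_pos P).le
  simp only [c_a, c_b, c_c] at a b c ⊢
  have k1 : |xa (ψ P) - xa P| ≤ 16 * η * ((xa P + xc P) / 2) := by
    rw [abs_le]; constructor <;> linarith only [a.1, a.2, b.1, b.2, p1, p2]
  have k2 : |xc (ψ P) - xc P| ≤ 16 * η * ((xa P + xc P) / 2) := by
    rw [abs_le]; constructor <;> linarith only [a.1, a.2, b.1, b.2, p1, p2]
  refine ⟨k1, k2, fun h3 => ?_⟩
  obtain ⟨c1, c2⟩ := c h3
  have k3 : -xb P ≤ (xa P + xc P) / 2 := by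
    refine (neg_le_abs _).trans (abs_le_of_sq_le_sq ?_ (by linarith only [xa_pos P, xc_pos P]))
    linarith only [x_rel P, sq_nonneg (xa P - xc P)]
  have k4 := mul_le_mul_of_nonneg_left k3 h0
  rw [abs_le] at *
  constructor <;> linarith only [p2, a, b, c2, k4, c1]

theorem cosh_le_exp {d T : ℝ} (h0 : 0 ≤ d) (h : d ≤ T) : Real.cosh d ≤ Real.exp T := by
  rw [Real.cosh_eq]
  linarith only [Real.exp_le_exp.2 h, Real.exp_le_exp.2 (show -d ≤ T by linarith)]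

theorem exp_five : Real.exp 5 ≤ 150 := by
  have := Real.exp_one_lt_d9
  have h : Real.exp 5 = Real.exp 1 ^ 5 := by rw [← Real.exp_nat_mul]; norm_num
  rw [h]
  exact (pow_le_pow_left₀ (Real.exp_pos 1).le (show _ ≤ 2.72 by linarith only [this]) 5).trans (by norm_num)

theorem near_ball {e e1 : ℝ} {ψ : ℍ → ℍ} (h : QI e ψ) (he : 0 ≤ e) (h1 : dist (ψ I) I ≤ e1)
    (h2 : dist (ψ pb) pb ≤ e1) (h3 : dist (ψ pc) pc ≤ e1) (hη : e1 + e * 7 ≤ 1) {P : ℍ}
    (hP : dist P I ≤ 5) : dist (ψ P) P ≤ 9000 * (e1 + e * 7) := by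
  have h0 : 0 ≤ e1 + e * 7 := by have := dist_nonneg.trans h1; positivity
  obtain ⟨a, b, c⟩ := tri h he h1 h2 hP (by norm_num; linarith)
  have c := c h3
  rw [show (5 : ℝ) + 2 = 7 by norm_num] at a b c
  have k := mul_le_mul_of_nonneg_left ((cosh_le_exp dist_nonneg hP).trans exp_five) h0
  linarith [dist_le_X (z := ψ P) (w := P) (B := 4500 * (e1 + e * 7)) (by linarith only [h0, a, k]) (by linarith)
    (by linarith)]

/-- the identity or a reflection -/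
def rf (s : Bool) (z : ℍ) : ℍ := pt (if s then -z.re else z.re) z.im z.im_pos

theorem rf_dist (s : Bool) (z w : ℍ) : dist (rf s z) (rf s w) = dist z w := by
  have : Real.cosh (dist (rf s z) (rf s w)) = Real.cosh (dist z w) := by
    rw [cosh_dist', cosh_dist']
    cases s <;> simp only [rf, Bool.false_eq_true, ↓ reduceIte, pt_re, pt_im, sub_neg_eq_add]
    ring
  have h1 := Real.cosh_le_cosh.1 this.le
  have h2 := Real.cosh_le_cosh.1 this.ge
  rw [abs_of_nonneg dist_nonneg, abs_of_nonneg dist_nonneg] at h1 h2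
  linarith

theorem rf_rf (s : Bool) (z : ℍ) : rf s (rf s z) = z := by
  cases s <;> (ext1; simp [rf, pt, Complex.ext_iff])

theorem rf_I (s : Bool) : rf s I = I := by
  cases s <;> (ext1; simp [rf, pt, Complex.ext_iff])

theorem rf_pb (s : Bool) : rf s pb = pb := by
  cases s <;> (ext1; simp [rf, pt, pb])

theorem normal {e : ℝ} {φ : ℍ → ℍ} (h : QI e φ) (he : 0 ≤ e) (he1 : e ≤ 1 / 10 ^ 5) :
    ∃ (g : SL(2, ℝ)) (s : Bool), g • I = φ I ∧
      ∀ w, dist w I ≤ 5 → dist (φ w) (g • rf s w) ≤ 10 ^ 8 * e := by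
  obtain ⟨g, g1, g2⟩ := exists_norm (φ I) (φ pb)
  have hψ : QI e fun z => g⁻¹ • φ z := by simpa using h.smul g⁻¹ 1
  have a1 : g⁻¹ • φ I = I := inv_smul_eq_iff.2 g1.symm
  have e1 : pb = ax (Real.log 2) := by
    ext1; simp [pb, ax, pt, Real.exp_log]
  have a2 : dist (g⁻¹ • φ pb) pb ≤ 2 * e := by
    rw [inv_smul_eq_iff.2 g2.symm]
    nth_rw 2 [e1]
    have : dist I pb = Real.log 2 := by
      rw [e1, ← ax_zero, dist_ax, zero_sub, abs_neg, abs_of_pos (Real.log_pos one_lt_two)]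
    rw [dist_ax, ← this]
    linarith only [h.le he (a := I) (b := pb) (T := 1) (by rw [dist_comm]; exact pb_I)]
  obtain ⟨b1, b2, -⟩ := tri (e1 := 2 * e) hψ he (by rw [a1]; simpa only [dist_self, Nat.ofNat_pos, mul_nonneg_iff_of_pos_left] using he) a2 pc_I (by linarith only [he1])
  have e2 : xa pc = 1 ∧ xb pc = 1 ∧ xc pc = 2 := by norm_num [xa, xb, xc, pc]
  rw [c_a, e2.1, e2.2.2] at b1 b2
  obtain ⟨s, hs⟩ : ∃ s : Bool, |xb (rf s (g⁻¹ • φ pc)) - xb pc| ≤ 400 * e := by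
    have r := x_rel (g⁻¹ • φ pc)
    rw [abs_le] at b1 b2
    have r1 : xb (g⁻¹ • φ pc) ^ 2 ≤ 1 + 400 * e := by nlinarith only [b1.2, b2.1, b2.2, he1, r]
    have r2 : 1 - 400 * e ≤ xb (g⁻¹ • φ pc) ^ 2 := by nlinarith only [b1.1, b2.1, he, r]
    rcases le_total 0 (xb (g⁻¹ • φ pc)) with k | k
    · refine ⟨false, ?_⟩
      change |xb (g⁻¹ • φ pc) - _| ≤ _
      rw [e2.2.1, abs_le]
      constructor <;> nlinarith only [he, r2, k, r1]
    · refine ⟨true, ?_⟩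
      rw [show xb (rf true (g⁻¹ • φ pc)) = -xb (g⁻¹ • φ pc) by simp [xb, rf, neg_div], e2.2.1,
        abs_le]
      constructor <;> nlinarith only [he, r2, k, r1]
  have a3 : dist (rf s (g⁻¹ • φ pc)) pc ≤ 2 * (400 * e) := by
    refine dist_le_X ?_ hs ?_
    · rw [show xa (rf s (g⁻¹ • φ pc)) = xa (g⁻¹ • φ pc) from rfl, e2.1]; linarith only [he, b1]
    · rw [show xc (rf s (g⁻¹ • φ pc)) = xc (g⁻¹ • φ pc) by cases s <;> simp only [xc, rf, Bool.false_eq_true, ↓ reduceIte, pt_re, pt_im, even_two, Even.neg_pow], e2.2.2]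
      linarith only [he, b2]
  refine ⟨g, s, g1, fun w hw => ?_⟩
  have := near_ball (e1 := 800 * e) (ψ := fun z => rf s (g⁻¹ • φ z))
    (fun a b => by rw [rf_dist]; exact hψ a b) he (by simp only [a1, rf_I]; simpa only [dist_self, Nat.ofNat_pos, mul_nonneg_iff_of_pos_left] using he)
    (by rw [← rf_dist s, rf_rf, rf_pb]; linarith only [he, a2]) (by linarith only [a3]) (by linarith only [he1]) hw
  rw [← rf_dist s, rf_rf, ← dist_smul g, smul_inv_smul] at this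
  linarith only [he, this]

end Pool.Agent.MP_7dc785_an

end

section

/-!
Almost isometries close to the identity, seen on points close to the boundary.
-/

namespace Pool.Agent.MP_7dc785_an

open Set Metric UpperHalfPlane
open scoped MatrixGroups

/-- a box close to the real axis -/
def Reg (T ι : ℝ) (P : ℍ) : Prop := |P.re| ≤ 1 ∧ P.im ≤ ι ∧ Real.exp (-T) ≤ P.im

theorem exp_le_cosh (d : ℝ) : Real.exp d ≤ 2 * Real.cosh d := by
  rw [Real.cosh_eq]; linarith [Real.exp_pos (-d)]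

theorem Reg.dist_le {T ι : ℝ} {P : ℍ} (h : Reg T ι P) (hι : ι ≤ 1) : dist P I ≤ T + 2 := by
  obtain ⟨h1, h2, h3⟩ := h
  have y := P.im_pos
  have a := exp_le_cosh (dist P I)
  rw [cosh_I, mul_div_assoc', le_div_iff₀ (by positivity)] at a
  have b : P.re ^ 2 ≤ 1 := by rwa [sq_le_one_iff_abs_le_one]
  have c : Real.exp (dist P I) * Real.exp (-T) ≤ 3 := by
    nlinarith only [mul_le_mul_of_nonneg_left h3 (Real.exp_pos (dist P I)).le, hι, h2, y, a, b]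
  rw [← Real.exp_add] at c
  have := Real.exp_le_exp.1 (c.trans (show 3 ≤ Real.exp 2 by linarith [Real.add_one_le_exp 2]))
  linarith

theorem im_ge {T : ℝ} {P : ℍ} (h : dist P I ≤ T) : Real.exp (-T) ≤ P.im := by
  have y := P.im_pos
  have := UpperHalfPlane.dist_log_im_le P I
  rw [Real.dist_eq, I_im, Real.log_one, sub_zero] at this
  rw [← Real.le_log_iff_exp_le y]
  linarith [(abs_le.1 (this.trans h)).1]

/-- almost an isometry and almost the identity at three reference points -/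
structure NI (e e1 : ℝ) (ψ : ℍ → ℍ) : Prop where
  qi : QI e ψ
  e0 : 0 ≤ e
  h1 : dist (ψ I) I ≤ e1
  h2 : dist (ψ pb) pb ≤ e1
  h3 : dist (ψ pc) pc ≤ e1

theorem NI.far {e e1 T ι η : ℝ} {ψ : ℍ → ℍ} (h : NI e e1 ψ) (hη : e1 + e * (T + 4) ≤ η)
    (hη1 : η ≤ 1 / 1000) (hι : ι ≤ 1) {P : ℍ} (hP : Reg T ι P) :
    |(ψ P).re - P.re| ≤ 180 * η ∧ |(ψ P).im - P.im| ≤ 90 * η * P.im := by
  obtain ⟨a, -, c⟩ := tri h.qi h.e0 h.h1 h.h2 (hP.dist_le hι) (by linarith)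
  have c := c h.h3
  have y := P.im_pos
  have y' := (ψ P).im_pos
  have b : P.re ^ 2 ≤ 1 := by rw [sq_le_one_iff_abs_le_one]; exact hP.1
  have h0 : 0 ≤ e1 + e * (T + 2 + 2) := by
    by_contra hc
    nlinarith only [abs_nonneg (xa (ψ P) - xa P), Real.one_le_cosh (dist P I), a, hc]
  have k : Real.cosh (dist P I) ≤ 3 / 2 * xa P := by
    rw [cosh_I, xa, div_le_iff₀ (by positivity)]
    field_simp
    nlinarith only [hP.2.1, hι, y, b]
  have k0 := xa_pos P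
  have k1 : (e1 + e * (T + 2 + 2)) * Real.cosh (dist P I) ≤ η * (3 / 2 * xa P) :=
    mul_le_mul (by linarith only [hη]) k (Real.cosh_pos _).le (by linarith only [hη, h0])
  have a' : |xa (ψ P) - xa P| ≤ 45 * η * xa P := by nlinarith only [hη, a, h0, k0, k1]
  have c' : |xb (ψ P) - xb P| ≤ 45 * η * xa P := by linarith only [c, k1]
  have e1 : xa (ψ P) - xa P = (P.im - (ψ P).im) / (P.im * (ψ P).im) := by
    rw [xa, xa]; field_simp
  have e2 : xb (ψ P) - xb P = ((ψ P).re * P.im - P.re * (ψ P).im) / (P.im * (ψ P).im) := by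
    rw [xb, xb]; field_simp
  have e3 : 45 * η * xa P * (P.im * (ψ P).im) = 45 * η * (ψ P).im := by
    rw [xa]; field_simp
  rw [e1, abs_div, abs_of_pos (mul_pos y y'), div_le_iff₀ (mul_pos y y'), e3, abs_le] at a'
  rw [e2, abs_div, abs_of_pos (mul_pos y y'), div_le_iff₀ (mul_pos y y'), e3, abs_le] at c'
  have η0 : 0 ≤ η := by linarith only [hη, h0]
  have y2 : (ψ P).im ≤ 2 * P.im := by nlinarith only [a'.1, hη1, y']
  have y3 := mul_le_mul_of_nonneg_left y2 η0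
  have i : |(ψ P).im - P.im| ≤ 90 * η * P.im := by
    rw [abs_le]; constructor <;> linarith only [a'.1, a'.2, y3]
  refine ⟨?_, i⟩
  have j : |P.re * ((ψ P).im - P.im)| ≤ 90 * η * P.im := by
    rw [abs_mul]; nlinarith only [hP.1, abs_nonneg P.re, a', y3, i]
  rw [abs_le] at j ⊢
  constructor <;> refine le_of_mul_le_mul_right ?_ y <;> linarith only [c'.1, c'.2, j.1, j.2, y3]

theorem cosh_N (z w : ℍ) : (w.re - z.re) ^ 2 + (w.im - z.im) ^ 2 =
    2 * (z.im * w.im) * (Real.cosh (dist z w) - 1) := by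
  have := z.im_pos; have := w.im_pos
  rw [cosh_dist']; field_simp; ring

theorem lip_prod {y1 y2 y3 y4 H H' η : ℝ} (p1 : 0 < y1) (p2 : 0 < y2) (p3 : 0 < y3) (p4 : 0 < y4)
    (a : |y3 - y1| ≤ 90 * η * y1) (b : |y4 - y2| ≤ 90 * η * y2) (c : |H' - H| ≤ 2 * (2 * η) * H)
    (H2 : 2 ≤ H) (η0 : 0 ≤ η) (η1 : η ≤ 1 / 1000) :
    y3 * y4 * (H' - 1) ≤ (1 + 200 * η) * (y1 * y2 * (H - 1)) ∧
      (1 - 188 * η) * (y1 * y2 * (H - 1)) ≤ y3 * y4 * (H' - 1) := by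
  rw [abs_le] at a b c
  have yy := mul_pos p1 p2
  have u1 : y3 * y4 ≤ (1 + 190 * η) * (y1 * y2) := by
    have := mul_le_mul (show y3 ≤ (1 + 90 * η) * y1 by linarith only [a.2])
      (show y4 ≤ (1 + 90 * η) * y2 by linarith only [b.2]) p4.le (by positivity)
    linarith only [mul_nonneg (mul_nonneg η0 (sub_nonneg.2 η1)) yy.le, mul_nonneg η0 yy.le, this]
  have u2 : (1 - 180 * η) * (y1 * y2) ≤ y3 * y4 := by
    have := mul_le_mul (show (1 - 90 * η) * y1 ≤ y3 by linarith only [a.1])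
      (show (1 - 90 * η) * y2 ≤ y4 by linarith only [b.1]) (mul_nonneg (by linarith) p2.le) p3.le
    linarith only [mul_nonneg (sq_nonneg η) yy.le, this]
  have q := mul_nonneg η0 (sub_nonneg.2 H2)
  have v1 : H' - 1 ≤ (1 + 8 * η) * (H - 1) := by linarith only [c.2, q]
  have v2 : (1 - 8 * η) * (H - 1) ≤ H' - 1 := by linarith only [c.1, q]
  have v0 : 0 ≤ (1 - 8 * η) * (H - 1) := mul_nonneg (by linarith only [η1]) (by linarith only [H2])
  have w1 := mul_le_mul u1 v1 (by linarith) (by positivity)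
  have w2 := mul_le_mul u2 v2 v0 (by positivity)
  have G0 : 0 ≤ y1 * y2 * (H - 1) := mul_nonneg yy.le (by linarith only [H2])
  constructor
  · linarith [mul_nonneg (mul_nonneg η0 (sub_nonneg.2 η1)) G0, mul_nonneg η0 G0]
  · linarith only [mul_nonneg (sq_nonneg η) G0, w2]

theorem lip_sq {G G' D x m m' η : ℝ} (D0 : 0 < D) (N : D ^ 2 + m = 2 * G) (N' : x ^ 2 + m' = 2 * G')
    (m0 : 0 ≤ m) (m1 : m ≤ (η * D) ^ 2) (m2 : 0 ≤ m') (m3 : m' ≤ 4 * (η * D) ^ 2)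
    (w3 : G' ≤ (1 + 200 * η) * G) (w4 : (1 - 188 * η) * G ≤ G') (η0 : 0 ≤ η) (η1 : η ≤ 1 / 1000) :
    abs (|x| - D) ≤ 300 * η * D := by
  have p := mul_nonneg η0 (sq_nonneg D)
  have p2 := mul_nonneg (mul_nonneg η0 (sub_nonneg.2 η1)) (sq_nonneg D)
  have p3 := mul_nonneg (sq_nonneg η) (sq_nonneg D)
  have G1 : 2 * G ≤ (1 + η) * D ^ 2 := by linarith
  have G2 : D ^ 2 ≤ 2 * G := by linarith only [N, m0]
  have z1 : x ^ 2 ≤ ((1 + 300 * η) * D) ^ 2 := by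
    linarith only [mul_le_mul_of_nonneg_left G1 (show 0 ≤ 1 + 200 * η by linarith only [η0]), N', m0, m1, m2, w3, p]
  have z2 : ((1 - 300 * η) * D) ^ 2 ≤ x ^ 2 := by
    linarith [mul_le_mul_of_nonneg_left G2 (show 0 ≤ 1 - 188 * η by linarith only [η1])]
  have z3 := abs_le_of_sq_le_sq z1 (by positivity)
  have z4 := (abs_le_of_sq_le_sq' (z2.trans_eq (sq_abs _).symm) (abs_nonneg _)).2
  rw [abs_le]
  constructor <;> linarith only [z4, z3]

theorem NI.lip {e e1 T ι η : ℝ} {ψ : ℍ → ℍ} (h : NI e e1 ψ) (hη : e1 + e * (T + 4) ≤ η)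
    (hη1 : η ≤ 1 / 1000) (hι : ι ≤ 1) {P Q : ℍ} (hP : Reg T ι P) (hQ : Reg T ι Q)
    (hd : ι ≤ η * (Q.re - P.re)) :
    abs (|(ψ Q).re - (ψ P).re| - (Q.re - P.re)) ≤ 300 * η * (Q.re - P.re) := by
  obtain ⟨a0, a⟩ := h.far hη hη1 hι hP
  have b := (h.far hη hη1 hι hQ).2
  have y1 := P.im_pos; have y2 := Q.im_pos; have y3 := (ψ P).im_pos; have y4 := (ψ Q).im_pos
  have he1 : 0 ≤ e1 := dist_nonneg.trans h.h1
  have e0 := h.e0
  have η0 : 0 ≤ η := by linarith only [abs_nonneg ((ψ P).re - P.re), a0]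
  have ι0 : 0 < ι := y1.trans_le hP.2.1
  have D0 : 0 < Q.re - P.re := pos_of_mul_pos_right (ι0.trans_le hd) η0
  have c := cosh_close (η := 2 * η) ((h.qi.le e0 (a := P) (b := Q) (T := 2 * T + 4)
    (by linarith only [dist_triangle_right P Q I, hP.dist_le hι, hQ.dist_le hι])).trans
      (by linarith only [hη, he1, e0])) (by linarith only [hη1])
  have N := cosh_N P Q
  have i1 : P.im * Q.im ≤ ι ^ 2 := by
    rw [sq]; exact mul_le_mul hP.2.1 hQ.2.1 y2.le ι0.le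
  have i2 : ι ^ 2 ≤ (η * (Q.re - P.re)) ^ 2 := pow_le_pow_left₀ ι0.le hd 2
  have H2 : 2 ≤ Real.cosh (dist P Q) := by
    by_contra hc
    have i3 : (η * (Q.re - P.re)) ^ 2 ≤ (1 / 1000 * (Q.re - P.re)) ^ 2 := by gcongr
    linarith only [sq_nonneg (Q.im - P.im), mul_pos (mul_pos y1 y2) (sub_pos.2 (not_le.1 hc)), sq_pos_of_pos D0, N, i1, i2, i3]
  obtain ⟨w3, w4⟩ := lip_prod y1 y2 y3 y4 a b c H2 η0 hη1
  have m1 : (Q.im - P.im) ^ 2 ≤ ι ^ 2 := sq_le_sq' (by linarith only [hP.2.1, y2]) (by linarith only [hQ.2.1, y1])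
  have m2 : ((ψ Q).im - (ψ P).im) ^ 2 ≤ (2 * ι) ^ 2 := sq_le_sq'
    (by linarith only [hP.2.1, (abs_le.1 a).2, mul_le_mul_of_nonneg_right hη1 y1.le, y4, ι0])
    (by linarith only [hQ.2.1, (abs_le.1 b).2, mul_le_mul_of_nonneg_right hη1 y2.le, y3, ι0])
  exact lip_sq D0 (N.trans (mul_assoc _ _ _)) ((cosh_N _ _).trans (mul_assoc _ _ _)) (sq_nonneg _)
    (m1.trans i2) (sq_nonneg _) (by linarith only [i2, m2]) w3 w4 η0 hη1

theorem NI.ord {e e1 T ι η : ℝ} {ψ : ℍ → ℍ} (h : NI e e1 ψ) (hc : Continuous ψ)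
    (hη : e1 + e * (T + 4) ≤ η) (hη1 : η ≤ 1 / 2000) (hι : ι ≤ 1) {P Q : ℍ} (hP : Reg T ι P)
    (hP' : P.re ≤ 3 / 4) (hQ : Reg T ι Q) (hd : ι ≤ η * (Q.re - P.re)) :
    |(ψ Q).re - (ψ P).re - (Q.re - P.re)| ≤ 300 * η * (Q.re - P.re) := by
  have ι0 : 0 < ι := P.im_pos.trans_le hP.2.1
  have η0 : 0 ≤ η := by linarith only [(abs_nonneg _).trans (h.far hη (by linarith) hι hP).1]
  have r : ∀ t ∈ Icc Q.re 1, Reg T ι (pt t Q.im Q.im_pos) := fun t ht =>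
    ⟨abs_le.2 ⟨(abs_le.1 hQ.1).1.trans ht.1, ht.2⟩, hQ.2⟩
  have e : pt Q.re Q.im Q.im_pos = Q := rfl
  have k : 0 ≤ (ψ Q).re - (ψ P).re := by
    by_contra hn
    have c : Continuous fun t : ℝ => (ψ (pt t Q.im Q.im_pos)).re - (ψ P).re :=
      (continuous_re.comp (hc.comp (Continuous.upperHalfPlaneMk
        (by simp only [Complex.mk_eq_add_mul_I]; fun_prop) _))).sub
        continuous_const
    have a := abs_le.1 (h.far hη (by linarith only [hη1]) hι hP).1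
    have b := abs_le.1 (h.far hη (by linarith only [hη1]) hι (r 1 ⟨(abs_le.1 hQ.1).2, le_rfl⟩)).1
    obtain ⟨t, ht, h0⟩ := intermediate_value_Icc (abs_le.1 hQ.1).2 c.continuousOn
      (show 0 ∈ _ from ⟨(not_le.1 hn).le, by simp only [pt_re] at b; linarith only [a.2, b.1, hη1, hP']⟩)
    have hd' : ι ≤ η * (t - P.re) := hd.trans (by gcongr; exact ht.1)
    have := (abs_le.1 (h.lip hη (by linarith only [hη1]) hι hP (r t ht) hd')).1
    simp only [pt_re] at this h0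
    rw [h0, abs_zero] at this
    have D0 : 0 < t - P.re := pos_of_mul_pos_right (ι0.trans_le hd') η0
    linarith only [mul_le_mul_of_nonneg_right hη1 D0.le, ι0, hd', this]
  have := h.lip hη (by linarith only [hη1]) hι hP hQ hd
  rwa [abs_of_nonneg k] at this

end Pool.Agent.MP_7dc785_an

end

section

/-!
The action of almost isometries on an orbit and its comparison with Moebius maps.
-/

namespace Pool.Agent.MP_7dc785_an

open Set Metric UpperHalfPlane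
open scoped MatrixGroups

/-- an almost isometry preserving the relation `r` -/
structure Gd (r : ℍ → ℍ → Prop) (e : ℝ) (φ : ℍ ≃ₜ ℍ) : Prop where
  q1 : QI e φ
  q2 : QI e φ.symm
  pres : ∀ z w, r z w ↔ r (φ z) (φ w)

/-- what is used of the orbit relation of a homogeneous surface of systole `l` -/
structure Dat (r : ℍ → ℍ → Prop) (l e : ℝ) : Prop where
  eqv : Equivalence r
  sep : ∀ z w, r z w → z ≠ w → l ≤ dist z w
  shift : ∀ y P w, r P y → ∃ P', r P' w ∧ dist P P' = dist y w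
  pair : ∀ y, ∃ P Q, r P y ∧ r Q y ∧ dist y P ≤ l + 1 ∧ dist y Q ≤ l + 1 ∧ 2 * l ≤ dist P Q
  trans : ∀ z w, ∃ φ, Gd r e φ ∧ φ z = w

/-- `φ` is close to the Moebius map `g` near `i` -/
structure NP (r : ℍ → ℍ → Prop) (e e1 : ℝ) (φ : ℍ ≃ₜ ℍ) (g : SL(2, ℝ)) : Prop where
  gd : Gd r e φ
  n1 : ∀ z, dist z I ≤ 1 → dist (φ z) (g • z) ≤ e1
  n2 : ∀ z, dist z I ≤ 1 → dist (φ.symm z) (g⁻¹ • z) ≤ e1

variable {r : ℍ → ℍ → Prop} {l e e' e1 : ℝ} {φ : ℍ ≃ₜ ℍ} {g : SL(2, ℝ)}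

theorem Gd.symm (h : Gd r e φ) : Gd r e φ.symm :=
  ⟨h.q2, h.q1, fun z w => by simpa using (h.pres (φ.symm z) (φ.symm w)).symm⟩

theorem NP.symm (h : NP r e e1 φ g) : NP r e e1 φ.symm g⁻¹ :=
  ⟨h.gd.symm, h.n2, by simpa only [Homeomorph.symm_symm, inv_inv] using h.n1⟩

theorem NP.ni (h : NP r e e1 φ g) (he : 0 ≤ e) : NI e e1 fun z => g⁻¹ • φ z := by
  have k : ∀ z, dist z I ≤ 1 → dist (g⁻¹ • φ z) z ≤ e1 := fun z hz => by
    rw [← dist_smul g, smul_inv_smul]; exact h.n1 z hz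
  exact ⟨by simpa using h.gd.q1.smul g⁻¹ 1, he, k _ (by simp), k _ pb_I, k _ pc_I⟩

theorem Dat.act (D : Dat r l e') (h : Gd r e φ) (he : 0 ≤ e) {ν : ℝ} (h1 : dist (φ I) I ≤ ν)
    (h2 : dist (φ.symm I) I ≤ ν) (hl : 2 * ν + e * (1 + ν) < l) :
    ∃ U : Equiv.Perm {P // r P I}, ∀ P : {P // r P I},
      dist (φ P) (U P) ≤ ν ∧ dist (φ.symm P) (U⁻¹ P).1 ≤ ν := by
  have ex : ∀ {φ : ℍ ≃ₜ ℍ}, Gd r e φ → dist (φ I) I ≤ ν → ∀ P : {P // r P I},
      ∃ Q : {P // r P I}, dist (φ P) Q ≤ ν := fun h h1 P => by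
    obtain ⟨Q, q1, q2⟩ := D.shift _ _ I ((h.pres _ _).1 P.2)
    exact ⟨⟨Q, q1⟩, q2.le.trans h1⟩
  have inv : ∀ {φ : ℍ ≃ₜ ℍ}, Gd r e φ → ∀ P Q S : {P // r P I}, dist (φ P) Q ≤ ν →
      dist (φ.symm Q) S ≤ ν → S = P := fun {φ} h P Q S a b => by
    by_contra hc
    have c := D.sep S P (D.eqv.trans S.2 (D.eqv.symm P.2)) fun e => hc (Subtype.ext e)
    have d := h.q2.ub he a
    rw [φ.symm_apply_apply] at d
    linarith [dist_triangle_right (S : ℍ) P (φ.symm Q), dist_comm (φ.symm Q) S]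
  choose f hf using ex h h1
  choose f' hf' using ex h.symm h2
  exact ⟨⟨f, f', fun P => inv h P _ _ (hf P) (hf' _), fun P => inv h.symm P _ _ (hf' P) (hf _)⟩,
    fun P => ⟨hf P, hf' P⟩⟩

/-- the action on the boundary -/
noncomputable def mob (g : SL(2, ℝ)) (t : ℝ) : ℝ := (g 0 0 * t + g 0 1) / (g 1 0 * t + g 1 1)

theorem mob_mul (g : SL(2, ℝ)) {t : ℝ} (h : g 1 0 * t + g 1 1 ≠ 0) :
    mob g t * (g 1 0 * t + g 1 1) = g 0 0 * t + g 0 1 := div_mul_cancel₀ _ h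

theorem mob_sub (g : SL(2, ℝ)) {t t' : ℝ} (h : g 1 0 * t + g 1 1 ≠ 0) (h' : g 1 0 * t' + g 1 1 ≠ 0) :
    (mob g t' - mob g t) * ((g 1 0 * t + g 1 1) * (g 1 0 * t' + g 1 1)) = t' - t := by
  linear_combination (t' - t) * det_eq g + (g 1 0 * t + g 1 1) * mob_mul g h' -
    (g 1 0 * t' + g 1 1) * mob_mul g h

theorem mob_self (g : SL(2, ℝ)) {t : ℝ} (h : g 1 0 * t + g 1 1 ≠ 0) :
    (mob g t - t) * (g 1 0 * t + g 1 1) = (g 0 0 - g 1 1) * t + g 0 1 - g 1 0 * t ^ 2 := by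
  linear_combination mob_mul g h

theorem mob_near (g : SL(2, ℝ)) (z : ℍ) (h1 : 1 / 2 ≤ g 1 0 * z.re + g 1 1) (h2 : |g 1 0| ≤ 1)
    (h3 : z.im ≤ 1 / 8) : |(g • z).re - mob g z.re| ≤ z.im ∧ (g • z).im ≤ 4 * z.im := by
  have y := z.im_pos
  have e := smul_coe g z
  rw [eq_div_iff (den_ne g z), Complex.ext_iff] at e
  simp only [Complex.mul_re, Complex.add_re, Complex.mul_im, Complex.add_im, Complex.ofReal_re,
    Complex.ofReal_im, coe_re, coe_im, zero_mul, sub_zero, add_zero] at e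
  obtain ⟨e1, e2⟩ := e
  have d := det_eq g
  have m := mob_self g (t := z.re) (by linarith only [h1])
  have y' := (g • z).im_pos
  generalize (g • z).re = u at *
  generalize (g • z).im = v at *
  have k1 : v * ((g 1 0 * z.re + g 1 1) ^ 2 + (g 1 0 * z.im) ^ 2) = z.im := by
    linear_combination (g 1 0 * z.re + g 1 1) * e2 - g 1 0 * z.im * e1 + z.im * d
  have k2 : (u - mob g z.re) * (g 1 0 * z.re + g 1 1) = v * (g 1 0 * z.im) := by
    linear_combination e1 - m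
  have k3 : v ≤ 4 * z.im := by
    linarith only [mul_nonneg y'.le (sq_nonneg (g 1 0 * z.im)), mul_le_mul_of_nonneg_left
      (show 1 / 4 ≤ (g 1 0 * z.re + g 1 1) ^ 2 by nlinarith only [h1]) y'.le, k1]
  refine ⟨?_, k3⟩
  have k4 := congrArg abs k2
  rw [abs_mul, abs_mul, abs_mul, abs_of_pos y, abs_of_pos y',
    abs_of_pos (show 0 < g 1 0 * z.re + g 1 1 by linarith only [h1])] at k4
  have k5 : v * (|g 1 0| * z.im) ≤ 1 / 2 * (1 * z.im) := by gcongr; linarith only [h3, k3]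
  nlinarith only [h1, y, k4, k5]

/-- a matrix close to the identity -/
def Sm (g : SL(2, ℝ)) (b : ℝ) : Prop :=
  |g 0 0 - 1| ≤ b ∧ |g 1 1 - 1| ≤ b ∧ |g 0 1| ≤ b ∧ |g 1 0| ≤ b

theorem inv_ent (g : SL(2, ℝ)) : g⁻¹ 0 0 = g 1 1 ∧ g⁻¹ 1 1 = g 0 0 ∧ g⁻¹ 0 1 = -g 0 1 ∧
    g⁻¹ 1 0 = -g 1 0 := by
  simp only [Fin.isValue, Matrix.SpecialLinearGroup.coe_inv, Matrix.adjugate_fin_two, Matrix.of_apply, Matrix.cons_val', Matrix.cons_val_zero, Matrix.cons_val_fin_one, Matrix.cons_val_one, and_self]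

theorem Sm.inv {b : ℝ} (h : Sm g b) : Sm g⁻¹ b := by
  obtain ⟨a, b, c, d⟩ := inv_ent g
  rw [Sm, a, b, c, d, abs_neg, abs_neg]
  exact ⟨h.2.1, h.1, h.2.2⟩

theorem Sm.den {b t : ℝ} (h : Sm g b) (ht : |t| ≤ 1) :
    1 - 2 * b ≤ g 1 0 * t + g 1 1 ∧ g 1 0 * t + g 1 1 ≤ 1 + 2 * b := by
  have a : |g 1 0 * t| ≤ b := by
    rw [abs_mul]; exact (mul_le_of_le_one_right (abs_nonneg _) ht).trans h.2.2.2
  have c := h.2.1
  rw [abs_le] at a c
  constructor <;> linarith only [a.1, a.2, c.1, c.2]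

theorem Sm.mv {b t : ℝ} (h : Sm g b) (hb : b ≤ 1 / 4) (ht : |t| ≤ 1) : |mob g t - t| ≤ 8 * b := by
  have a := (h.den ht).1
  have m := congrArg abs (mob_self g (t := t) (by linarith))
  rw [abs_mul, abs_of_pos (show 0 < g 1 0 * t + g 1 1 by linarith only [hb, a])] at m
  obtain ⟨h1, h2, h3, h4⟩ := h
  have c : |(g 0 0 - g 1 1) * t| ≤ 2 * b := by
    rw [abs_mul]
    refine (mul_le_of_le_one_right (abs_nonneg _) ht).trans ?_
    rw [abs_le] at *
    constructor <;> linarith only [h1.1, h1.2, h2.1, h2.2]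
  have d : |g 1 0 * t ^ 2| ≤ b := by
    rw [abs_mul, abs_pow]
    exact (mul_le_of_le_one_right (abs_nonneg _) (pow_le_one₀ (abs_nonneg _) ht)).trans h4
  have := abs_sub ((g 0 0 - g 1 1) * t + g 0 1) (g 1 0 * t ^ 2)
  have := abs_add_le ((g 0 0 - g 1 1) * t) (g 0 1)
  nlinarith [abs_nonneg (mob g t - t)]

theorem Sm.dI {b : ℝ} (h : Sm g b) : dist (g • I) I ≤ 3 * b := by
  have a := sq_le_cosh (dist I (g • I))
  have c := dp_I g
  obtain ⟨h1, h2, h3, h4⟩ := h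
  have b0 : 0 ≤ b := (abs_nonneg _).trans h1
  rw [abs_le] at h1 h2 h3 h4
  have d : (g 0 0 - g 1 1) ^ 2 ≤ (2 * b) ^ 2 := sq_le_sq' (by linarith) (by linarith only [h1, h2])
  have f : (g 0 1 + g 1 0) ^ 2 ≤ (2 * b) ^ 2 := sq_le_sq' (by linarith) (by linarith)
  rw [dp] at c
  rw [dist_comm]
  exact (abs_le_of_sq_le_sq' (by nlinarith only [a, c, d, f]) (by linarith only [h1])).2

/-- the boundary position of the image, up to the Moebius map -/
noncomputable def tq (φ : ℍ ≃ₜ ℍ) (g : SL(2, ℝ)) (P : ℍ) : ℝ := (g⁻¹ • φ P).re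

theorem NP.pos {T ι η b : ℝ} (h : NP r e e1 φ g) (he : 0 ≤ e) (hs : Sm g b) (hb : b ≤ 1 / 4)
    (hη : e1 + e * (T + 4) ≤ η) (hη1 : η ≤ 1 / 2000) (hι : ι ≤ 1 / 48) {P Q : ℍ} (hP : Reg T ι P)
    (hP' : |P.re| ≤ 1 / 2) (hQ : dist (φ P) Q ≤ 1) :
    |tq φ g P - P.re| ≤ 180 * η ∧ |tq φ g P| ≤ 3 / 5 ∧ |Q.re - mob g (tq φ g P)| ≤ 18 * ι ∧
      Q.im ≤ 24 * ι := by
  obtain ⟨a, c⟩ := (h.ni he).far hη (by linarith only [hη1]) (by linarith only [hι]) hP
  have y := P.im_pos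
  have a1 : |tq φ g P| ≤ 3 / 5 := by
    rw [abs_le] at *
    constructor <;> linarith only [a.1, a.2, hP'.1, hP'.2, tq.eq_1 φ g P, hη1]
  have c1 : (g⁻¹ • φ P).im ≤ 2 * ι := by
    linarith only [(abs_le.1 c).2, mul_le_mul_of_nonneg_right hη1 y.le, hP.2.1, y]
  have d0 := (hs.den (a1.trans (by norm_num))).1
  obtain ⟨d1, d2⟩ := mob_near g (g⁻¹ • φ P) (by rw [tq] at d0; linarith only [hb, d0]) (by linarith only [hs.2.2.2, hb])
    (by linarith only [hι, c1])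
  rw [smul_inv_smul] at d1 d2
  have f := dist_coe_le Q (φ P)
  have f2 : Real.exp (dist Q (φ P)) - 1 ≤ 2 := by
    linarith only [Real.exp_le_exp.2 (dist_comm Q _ ▸ hQ), Real.exp_one_lt_d9]
  have f3 := f.trans (mul_le_mul_of_nonneg_left f2 (φ P).im_pos.le)
  rw [Complex.dist_eq] at f3
  have f4 := abs_le.1 ((Complex.abs_re_le_norm _).trans f3)
  have f5 := abs_le.1 ((Complex.abs_im_le_norm _).trans f3)
  simp only [Complex.sub_re, Complex.sub_im, coe_re, coe_im] at f4 f5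
  refine ⟨a, a1, ?_, by linarith only [f5.2, c1, d2]⟩
  rw [abs_le] at d1 ⊢
  rw [tq]
  constructor <;> linarith only [d1.1, d1.2, f4.1, f4.2, c1, d2]

theorem NP.slope {T ι η b lo hi : ℝ} (h : NP r e e1 φ g) (he : 0 ≤ e) (hs : Sm g b)
    (hb : b ≤ 1 / 4) (hη : e1 + e * (T + 4) ≤ η) (hη1 : η ≤ 1 / 2000) (hι : ι ≤ 1 / 48)
    (hd : ∀ t, |t| ≤ 1 → lo ≤ g 1 0 * t + g 1 1 ∧ g 1 0 * t + g 1 1 ≤ hi) (hlo : 0 < lo)
    (hhi : hi ≤ 2) {P Q P' Q' : ℍ} (hP : Reg T ι P) (hP1 : |P.re| ≤ 1 / 2)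
    (hQ : dist (φ P) Q ≤ 1) (hP' : Reg T ι P') (hP1' : |P'.re| ≤ 1 / 2)
    (hQ' : dist (φ P') Q' ≤ 1) (hD : ι ≤ η * (P'.re - P.re)) :
    (1 - 450 * η) * (P'.re - P.re) ≤ hi ^ 2 * (Q'.re - Q.re) ∧
      lo ^ 2 * (Q'.re - Q.re) ≤ (1 + 450 * η) * (P'.re - P.re) := by
  obtain ⟨a0, a1, a2, -⟩ := h.pos he hs hb hη hη1 hι hP hP1 hQ
  obtain ⟨-, b1, b2, -⟩ := h.pos he hs hb hη hη1 hι hP' hP1' hQ'
  have c := (h.ni he).ord ((continuous_const_smul _).comp φ.continuous) hη hη1 (by linarith only [hι]) hP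
    (by linarith only [(abs_le.1 hP1).2]) hP' hD
  change |tq φ g P' - tq φ g P - _| ≤ _ at c
  obtain ⟨d1, d2⟩ := hd _ (a1.trans (by norm_num))
  obtain ⟨d3, d4⟩ := hd _ (b1.trans (by norm_num))
  have m := mob_sub g (t := tq φ g P) (t' := tq φ g P') (by linarith only [hlo, d1]) (by linarith only [hlo, d3])
  have η0 : 0 ≤ η := by linarith only [abs_nonneg (tq φ g P - P.re), a0]
  have ι0 : 0 < ι := P.im_pos.trans_le hP.2.1
  have D0 : 0 < P'.re - P.re := pos_of_mul_pos_right (ι0.trans_le hD) η0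
  have k1 := mul_le_mul d1 d3 hlo.le (by linarith only [hlo, d1])
  have k2 := mul_le_mul d2 d4 (by linarith only [hlo, d3]) (by linarith only [hlo, d1, d2])
  have k0 := mul_pos hlo hlo
  rw [abs_le] at a2 b2 c
  have p := mul_le_mul_of_nonneg_right hη1 D0.le
  have m0 : 0 < mob g (tq φ g P') - mob g (tq φ g P) :=
    pos_of_mul_pos_left (by rw [m]; linarith only [c.1, hD, ι0, p]) (k0.le.trans k1)
  have n1 := mul_le_mul_of_nonneg_left k1 m0.le
  have n2 := mul_le_mul_of_nonneg_left k2 m0.le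
  have h4 : hi ^ 2 ≤ 4 := by nlinarith only [hlo, hhi, d1, d2]
  have l4 : lo ^ 2 ≤ 4 := by linarith only [k1, k2, h4]
  have n3 := mul_le_mul_of_nonneg_left (show mob g (tq φ g P') - mob g (tq φ g P) - 36 * ι ≤
    Q'.re - Q.re by linarith only [a2.2, b2.1]) (sq_nonneg hi)
  have n4 := mul_le_mul_of_nonneg_left (show Q'.re - Q.re ≤
    mob g (tq φ g P') - mob g (tq φ g P) + 36 * ι by linarith only [a2.1, b2.2]) (sq_nonneg lo)
  have n5 := mul_le_mul_of_nonneg_right h4 ι0.le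
  have n6 := mul_le_mul_of_nonneg_right l4 ι0.le
  have := mul_nonneg η0 D0.le
  constructor <;> linarith only [c.1, c.2, hD, m, ι0, n2, n3, n5, n1, n4, n6]

theorem Dat.near_pt (D : Dat r l e) (hl : 2 ≤ l) (p : ℝ) {ρ B : ℝ} (hρ : 0 < ρ)
    (hB : dist (pt p ρ hρ) I ≤ B) (h1 : 257 * Real.exp (B + 1 - l) ≤ 1) :
    ∃ q, r q I ∧ |q.re - p| ≤ 17 * ρ ∧ q.im ≤ 17 * ρ ∧ dist q I ≤ 2 * B + l + 1 := by
  have im_eq : ∀ P : ℍ, 2 * ρ * P.im * Real.cosh (dist (pt p ρ hρ) P) =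
      (P.re - p) ^ 2 + P.im ^ 2 + ρ ^ 2 := fun P => by
    have := P.im_pos
    rw [cosh_dist']; simp only [pt_re, pt_im]; field_simp; ring
  have key : ∀ P Q : ℍ, dist (pt p ρ hρ) P ≤ l + 1 → dist (pt p ρ hρ) Q ≤ l + 1 →
      2 * l ≤ dist P Q → (P.re - p) ^ 2 + P.im ^ 2 ≤ (Q.re - p) ^ 2 + Q.im ^ 2 →
      (P.re - p) ^ 2 + P.im ^ 2 ≤ (16 * ρ) ^ 2 := fun P Q a b c d => by
    have y1 := P.im_pos; have y2 := Q.im_pos
    have lo : ∀ P : ℍ, dist (pt p ρ hρ) P ≤ l + 1 →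
        (P.re - p) ^ 2 + P.im ^ 2 ≤ 2 * ρ * P.im * Real.exp (l + 1) := fun P a => by
      have := P.im_pos
      linarith only [im_eq P, sq_nonneg ρ, mul_le_mul_of_nonneg_left (cosh_le_exp dist_nonneg a)
        (show 0 ≤ 2 * ρ * P.im by positivity), hρ]
    have q0 : 0 < (Q.re - p) ^ 2 + Q.im ^ 2 := by positivity
    have k1 := mul_le_mul (lo P a) (lo Q b) q0.le (by positivity)
    have k2 : Real.exp (l + 1) ^ 2 ≤ 32 * (Real.cosh (dist P Q) - 1) := by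
      have e1 : Real.exp (l + 1) ^ 2 = Real.exp (2 * l) * Real.exp 1 ^ 2 := by
        rw [← Real.exp_nat_mul, ← Real.exp_nat_mul, ← Real.exp_add]; congr 1; push_cast; ring
      have e2 : Real.exp 1 ^ 2 ≤ 8 := by nlinarith only [Real.exp_one_lt_d9, Real.exp_pos 1]
      have e3 := exp_le_cosh (dist P Q)
      have e4 := Real.exp_le_exp.2 c
      have e5 := Real.add_one_le_exp (2 * l)
      nlinarith only [hl, e1, e2, e3, e4, e5]
    have k3 := cosh_N P Q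
    have k4 : (Q.re - P.re) ^ 2 + (Q.im - P.im) ^ 2 ≤ 4 * ((Q.re - p) ^ 2 + Q.im ^ 2) := by
      linarith only [sq_nonneg (Q.re - p + (P.re - p)), sq_nonneg (Q.im + P.im), d]
    have k5 := mul_le_mul_of_nonneg_left k2 (show 0 ≤ 4 * ρ ^ 2 * (P.im * Q.im) by positivity)
    have k6 := mul_le_mul_of_nonneg_left k4 (show 0 ≤ 64 * ρ ^ 2 by positivity)
    rw [k3] at k6
    exact le_of_mul_le_mul_right (by linarith) q0
  have main : ∀ P : ℍ, r P (pt p ρ hρ) → dist (pt p ρ hρ) P ≤ l + 1 →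
      l - 1 ≤ dist (pt p ρ hρ) P → (P.re - p) ^ 2 + P.im ^ 2 ≤ (16 * ρ) ^ 2 →
      ∃ q, r q I ∧ |q.re - p| ≤ 17 * ρ ∧ q.im ≤ 17 * ρ ∧ dist q I ≤ 2 * B + l + 1 :=
    fun P a b c d => by
      obtain ⟨q, q1, q2⟩ := D.shift _ _ I a
      have y := P.im_pos
      have f := dist_coe_le q P
      have f1 : P.im * Real.exp (l - 1) ≤ 257 * ρ := by
        refine le_of_mul_le_mul_left ?_ hρ
        have := mul_le_mul_of_nonneg_left ((Real.exp_le_exp.2 c).trans (exp_le_cosh _))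
          (show 0 ≤ ρ * P.im by positivity)
        linarith [im_eq P]
      have f2 : Real.exp (dist q P) ≤ Real.exp (B + 1 - l) * Real.exp (l - 1) := by
        rw [← Real.exp_add, Real.exp_le_exp, dist_comm]; linarith
      have f3 : dist (q : ℂ) P ≤ ρ := by
        have := mul_le_mul_of_nonneg_left f1 (Real.exp_pos (B + 1 - l)).le
        nlinarith only [mul_le_mul_of_nonneg_left f2 y.le, hρ, h1, y, f, this]
      rw [Complex.dist_eq] at f3
      have f4 := abs_le.1 ((Complex.abs_re_le_norm _).trans f3)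
      have f5 := abs_le.1 ((Complex.abs_im_le_norm _).trans f3)
      simp only [Complex.sub_re, Complex.sub_im, coe_re, coe_im] at f4 f5
      have g1 := abs_le_of_sq_le_sq' (a := P.re - p) (b := 16 * ρ) (by nlinarith only [d]) (by positivity)
      have g2 := abs_le_of_sq_le_sq' (a := P.im) (b := 16 * ρ)
        (by linarith only [sq_nonneg (P.re - p), d]) (by positivity)
      refine ⟨q, q1, abs_le.2 ⟨by linarith only [g1.1, f4.1], by linarith only [g1.2, f4.2]⟩,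
        by linarith only [g2.2, f5.2], ?_⟩
      linarith only [dist_triangle4 q P (pt p ρ hρ) I, dist_comm q P, dist_comm P (pt p ρ hρ), hρ, hB, b, q2]
  obtain ⟨P, Q, a, b, c, d, f⟩ := D.pair (pt p ρ hρ)
  have t := dist_triangle_left P Q (pt p ρ hρ)
  rcases le_total ((P.re - p) ^ 2 + P.im ^ 2) ((Q.re - p) ^ 2 + Q.im ^ 2) with k | k
  · exact main P a c (by linarith) (key P Q c d f k)
  · exact main Q b d (by linarith) (key Q P d c (dist_comm P Q ▸ f) k)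

end Pool.Agent.MP_7dc785_an

end

section

/-!
A small hyperbolic and a small transverse almost isometry contradict the discreteness of the orbit.
-/

namespace Pool.Agent.MP_7dc785_an

open Set Metric UpperHalfPlane
open scoped MatrixGroups

variable {r : ℍ → ℍ → Prop} {l e e' e1 : ℝ} {φ ψ : ℍ ≃ₜ ℍ} {g a : SL(2, ℝ)}

/-- the filtration of the orbit -/
def RR (r : ℍ → ℍ → Prop) (T0 β : ℝ) (n : ℕ) : Set {P // r P I} :=
  {P | |P.1.re| ≤ 1 / 4 + n * β ∧ P.1.im ≤ 1 / 2 ∧ dist P.1 I ≤ T0 + n * β}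

theorem Dat.reg (D : Dat r l e') {T0 T β ι : ℝ} {N : ℕ} (hN : N * β ≤ 1 / 4) (hT : T0 + 1 ≤ T)
    (hι : 2 * Real.exp (-l) ≤ ι) {P : {P // r P I}} (hP : P ∈ RR r T0 β N) :
    Reg T ι P ∧ |P.1.re| ≤ 1 / 2 ∧ dist P.1 I ≤ T := by
  obtain ⟨a, b, c⟩ := hP
  have y := P.1.im_pos
  have d := D.sep _ _ P.2 fun h => by rw [h] at b; norm_num at b
  have f := (Real.exp_le_exp.2 d).trans (exp_le_cosh _)
  rw [cosh_I, mul_div_assoc', le_div_iff₀ (by positivity)] at f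
  have a2 : P.1.re ^ 2 ≤ (1 / 2) ^ 2 := sq_le_sq' (by linarith only [(abs_le.1 a).1, hN])
    (by linarith only [(abs_le.1 a).2, hN])
  have k : P.1.im ≤ 2 * Real.exp (-l) := by
    rw [Real.exp_neg, ← div_eq_mul_inv, le_div_iff₀ (Real.exp_pos l)]
    nlinarith only [b, y, f, a2]
  exact ⟨⟨by linarith only [hN, a], k.trans hι, im_ge (by linarith only [hN, hT, c])⟩, by linarith only [hN, a], by linarith only [hN, hT, c]⟩

theorem NP.dI {s : ℝ} (h : NP r e e1 φ g) (hs : Sm g (2 * s)) (h1 : e1 ≤ s) :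
    dist (φ I) I ≤ 7 * s := by
  linarith [dist_triangle (φ I) (g • I) I, h.n1 I (by simp), hs.dI]

theorem NP.step {T T0 ι η s : ℝ} {n : ℕ} (h : NP r e e1 φ g) (he : 0 ≤ e) (hs : Sm g (2 * s))
    (s1 : s ≤ 1 / 1000) (hη : e1 + e * (T + 4) ≤ η) (hη1 : 200 * η ≤ s) (hι : ι ≤ η)
    {P Q : {P // r P I}} (hP : P ∈ RR r T0 (20 * s) n)
    (hP' : Reg T ι P ∧ |P.1.re| ≤ 1 / 2 ∧ dist P.1 I ≤ T) (hQ : dist (φ P) Q ≤ 7 * s) :
    Q ∈ RR r T0 (20 * s) (n + 1) := by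
  have T0 : 0 ≤ e * (T + 4) := by have := dist_nonneg.trans hP'.2.2; positivity
  have e0 : 0 ≤ e1 := dist_nonneg.trans (h.n1 I (by simp))
  obtain ⟨a, b, c, d⟩ := h.pos he hs (by linarith only [s1]) hη (by linarith only [s1, hη1]) (by linarith only [s1, hη1, hι]) hP'.1 hP'.2.1
    (hQ.trans (by linarith only [s1]))
  have m := hs.mv (by linarith only [s1]) (b.trans (by norm_num))
  have k := abs_le.1 (h.gd.q1.le he hP'.2.2)
  obtain ⟨p1, p2, p3⟩ := hP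
  rw [abs_le] at a c m p1
  refine ⟨abs_le.2 ⟨?_, ?_⟩, by linarith only [s1, hη1, hι, d], ?_⟩ <;> push_cast
  · linarith only [a.1, c.1, m.1, p1.1, hη, hη1, hι, T0, e0]
  · linarith only [a.2, c.2, m.2, p1.2, hη, hη1, hι, T0, e0]
  · linarith only [dist_triangle4 Q.1 (φ P) (φ I) I, dist_comm Q.1 (φ P), h.dI hs (by linarith only [hη, hη1, T0, e0]), k.2, he, hη, hη1, hQ, T0, e0, p3]

theorem num_t0 {s t0 t3 : ℝ} (det : (t0 + s) * (t0 - s) - t3 * -t3 = 1) (ht0 : 0 < t0)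
    (ht3 : |t3| ≤ s / 10) (s0 : 0 < s) (s1 : s ≤ 1 / 1000) : 1 ≤ t0 ∧ t0 ≤ 1 + s / 100 := by
  have t31 := abs_le.1 ht3
  have t32 : t3 ^ 2 ≤ (s / 10) ^ 2 := sq_le_sq' (by linarith only [t31]) (by linarith only [t31])
  exact ⟨by nlinarith only [det, ht0, t32], by nlinarith only [sq_nonneg t3, det, s0, s1]⟩

theorem num_U {s η D D' : ℝ} (s0 : 0 < s) (s1 : s ≤ 1 / 1000) (h : 4500 * η ≤ s) (h0 : 0 ≤ D)
    (b1 : (1 - 450 * η) * D ≤ (1 - 4 / 5 * s) ^ 2 * D')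
    (b2 : (1 - 6 / 5 * s) ^ 2 * D' ≤ (1 + 450 * η) * D) :
    (1 + s) * D ≤ D' ∧ D' ≤ (1 + 4 * s) * D := by
  have k1 := mul_le_mul_of_nonneg_left s1 (sq_nonneg s)
  have k2 := mul_le_mul_of_nonneg_left s1 s0.le
  have k3 := pow_pos s0 3
  have c1 : (1 - 4 / 5 * s) ^ 2 * (1 + s) ≤ 1 - 450 * η := by linarith only [h, k1, k2, k3]
  have c2 : 1 + 450 * η ≤ (1 - 6 / 5 * s) ^ 2 * (1 + 4 * s) := by linarith only [h, k1, k2, k3]
  exact ⟨le_of_mul_le_mul_left (by linarith only [mul_le_mul_of_nonneg_right c1 h0, b1])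
      (show 0 < (1 - 4 / 5 * s) ^ 2 from pow_pos (by linarith only [s1]) 2),
    le_of_mul_le_mul_left (by linarith only [mul_le_mul_of_nonneg_right c2 h0, b2])
      (show 0 < (1 - 6 / 5 * s) ^ 2 from pow_pos (by linarith only [s1]) 2)⟩

theorem num_A {s η D D' : ℝ} (s0 : 0 < s) (s1 : s ≤ 1 / 1000) (h : 4500 * η ≤ s) (h0 : 0 ≤ D)
    (b1 : (1 - 450 * η) * D ≤ (1 + 2 * (2 * s)) ^ 2 * D')
    (b2 : (1 - 2 * (2 * s)) ^ 2 * D' ≤ (1 + 450 * η) * D) :
    D ≤ (1 + 20 * s) * D' ∧ D' ≤ (1 + 20 * s) * D := by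
  have k1 := mul_le_mul_of_nonneg_left h s0.le
  have k2 := mul_le_mul_of_nonneg_left s1 s0.le
  have k3 := pow_pos s0 3
  have c1 : (1 + 2 * (2 * s)) ^ 2 ≤ (1 - 450 * η) * (1 + 20 * s) := by linarith
  have c2 : 1 + 450 * η ≤ (1 - 2 * (2 * s)) ^ 2 * (1 + 20 * s) := by linarith only [s0, h, k2, k3]
  have h1 : 0 ≤ D' := nonneg_of_mul_nonneg_right
    ((mul_nonneg (by linarith only [s0, s1, h]) h0).trans b1) (pow_pos (by linarith only [s0, s1]) 2)
  exact ⟨le_of_mul_le_mul_left (by linarith only [mul_le_mul_of_nonneg_right c1 h1, b1])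
      (show 0 < 1 - 450 * η by linarith only [s0, s1, h]),
    le_of_mul_le_mul_left (by linarith only [mul_le_mul_of_nonneg_right c2 h0, b2])
      (show 0 < (1 - 2 * (2 * s)) ^ 2 from pow_pos (by linarith only [s0, s1]) 2)⟩

theorem NP.mvA {T ι η s α : ℝ} (ha : NP r e e1 ψ a) (he : 0 ≤ e) (sa : Sm a (2 * s))
    (s1 : s ≤ 1 / 1000) (a00 : |a 0 0 - 1| ≤ α / 10) (a11 : |a 1 1 - 1| ≤ α / 10)
    (a01 : a 0 1 = α) (a10 : |a 1 0| ≤ α) (α0 : 0 < α) (α1 : α ≤ s)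
    (hη : e1 + e * (T + 4) ≤ η) (hη1 : 8000 * η ≤ α) (hι : ι ≤ η) {P Q : ℍ} (hP : Reg T ι P)
    (hP' : |P.re| ≤ 1 / 2) (hQ : dist (ψ P) Q ≤ 1) :
    α / 3 ≤ Q.re - P.re ∧ Q.re - P.re ≤ 3 * α := by
  obtain ⟨b1, b2, b3, -⟩ := ha.pos he sa (by linarith only [s1]) hη (by linarith only [s1, α1, hη1]) (by linarith only [s1, α1, hη1, hι]) hP hP' hQ
  obtain ⟨d1, d2⟩ := sa.den (b2.trans (by norm_num))
  have m := mob_self a (t := tq ψ a P) (by linarith only [s1, α0, α1, d1])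
  have f1 : |(a 0 0 - a 1 1) * tq ψ a P| ≤ α / 5 * (3 / 5) := by
    rw [abs_mul]
    refine mul_le_mul ?_ b2 (abs_nonneg _) (by linarith only [α0])
    rw [abs_le] at a00 a11 ⊢
    constructor <;> linarith only [a00.1, a00.2, a11.1, a11.2]
  have f2 : |a 1 0 * tq ψ a P ^ 2| ≤ α * (3 / 5) ^ 2 := by
    rw [abs_mul, abs_pow]; gcongr
  rw [abs_le] at b1 b3 f1 f2
  have m0 : 0 < mob a (tq ψ a P) - tq ψ a P :=
    pos_of_mul_pos_left (by rw [m]; linarith only [f1.1, f2.2, a01, α0]) (by linarith only [s1, α0, α1, d1])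
  have n1 := mul_le_mul_of_nonneg_left (d2.trans (show _ ≤ 11 / 10 by linarith only [s1])) m0.le
  have n2 := mul_le_mul_of_nonneg_left
    ((show (9 / 10 : ℝ) ≤ 1 - 2 * (2 * s) by linarith only [s1]).trans d1) m0.le
  constructor <;> linarith only [b1.1, b1.2, b3.1, b3.2, f1.1, f1.2, f2.1, f2.2, a01, hη1, hι, m, m0, n1, α0, n2]

theorem NP.vq {T ι η s α t0 t3 p ρ : ℝ} (hu : NP r e e1 φ g) (he : 0 ≤ e) (sg : Sm g (2 * s))
    (g00 : g 0 0 = t0 + s) (g11 : g 1 1 = t0 - s) (g01 : g 0 1 = t3) (g10 : g 1 0 = -t3)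
    (ht3 : |t3| ≤ s / 10) (s0 : 0 < s) (s1 : s ≤ 1 / 1000) (hη : e1 + e * (T + 4) ≤ η)
    (η0 : 0 ≤ η) (hη1 : η ≤ s ^ 2 * α / 8000) (hη2 : η ≤ 1 / 2000) (hι : ι ≤ η) (hρ : 0 < ρ)
    (hρ1 : ρ ≤ s * α / 2000) (p1 : |p| ≤ 1 / 5) (p3 : 2 * s * p + t3 + t3 * p ^ 2 = 0) {P Q : ℍ}
    (hP : Reg T ι P) (hP' : |P.re| ≤ 1 / 2) (hQ : dist (φ P) Q ≤ 1) (q2 : |P.re - p| ≤ 17 * ρ) :
    |Q.re - P.re| ≤ s ^ 2 * α / 20 := by
  obtain ⟨b1, b2, b3, -⟩ := hu.pos he sg (by linarith only [s1]) hη (by linarith only [hη2]) (by linarith only [hη2, hι]) hP hP' hQ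
  have d1 := (sg.den (b2.trans (by norm_num))).1
  have m := mob_self g (t := tq φ g P) (by linarith only [s0, s1, d1])
  have m2 : (g 0 0 - g 1 1) * tq φ g P + g 0 1 - g 1 0 * tq φ g P ^ 2 =
      (tq φ g P - p) * (2 * s + t3 * (tq φ g P + p)) := by
    rw [g00, g11, g01, g10]; linear_combination p3
  have f1 : |t3 * (tq φ g P + p)| ≤ s / 10 := by
    rw [abs_mul]
    refine (mul_le_of_le_one_right (abs_nonneg _) ?_).trans ht3
    rw [abs_le] at b2 p1 ⊢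
    constructor <;> linarith only [b2.1, b2.2, p1.1, p1.2]
  have f2 : |tq φ g P - p| ≤ 17 * ρ + 180 * η := by
    rw [abs_le] at b1 q2 ⊢
    constructor <;> linarith only [b1.1, b1.2, q2.1, q2.2]
  have f3 := mul_le_mul f2 ((abs_add_le (2 * s) _).trans
    (add_le_add (abs_of_pos (by linarith only [s0])).le f1)) (abs_nonneg _) (by positivity)
  rw [← abs_mul, ← m2, ← m, abs_mul,
    abs_of_pos (show 0 < g 1 0 * tq φ g P + g 1 1 by linarith only [s0, s1, d1])] at f3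
  have f4 := mul_le_mul_of_nonneg_left
    ((show (9 / 10 : ℝ) ≤ 1 - 2 * (2 * s) by linarith only [s1]).trans d1)
    (abs_nonneg (mob g (tq φ g P) - tq φ g P))
  have f5 := mul_le_mul_of_nonneg_left hρ1 s0.le
  have f6 := mul_le_mul_of_nonneg_left s1 η0
  have f7 := abs_le.1 (show |mob g (tq φ g P) - tq φ g P| ≤ s ^ 2 * α / 50 + η by linarith only [η0, hη1, f3, f4, f5, f6])
  rw [abs_le] at b1 b3 ⊢
  constructor <;> linarith only [b1.1, b1.2, b3.1, b3.2, f7.1, f7.2, η0, hη1, hι]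

theorem Dat.gap (D : Dat r l e') (hl : 0 ≤ l) {T ι δ : ℝ}
    (hδ : δ ^ 2 + ι ^ 2 ≤ 2 * Real.exp (-T) ^ 2 * (Real.cosh l - 1)) {x y : ℍ} (hx : Reg T ι x)
    (hy : Reg T ι y) (h : r y x) (hxy : y ≠ x) : δ ≤ |x.re - y.re| := by
  have d := cosh_mono hl (D.sep _ _ h hxy)
  obtain ⟨-, x1, x2⟩ := hx
  obtain ⟨-, y1, y2⟩ := hy
  have c := cosh_N y x
  have i : (x.im - y.im) ^ 2 ≤ ι ^ 2 :=
    sq_le_sq' (by linarith [x.im_pos]) (by linarith only [y.im_pos, x1])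
  have f := mul_le_mul (mul_le_mul y2 x2 (Real.exp_pos _).le y.im_pos.le)
    (sub_le_sub_right d 1) (by linarith [Real.one_le_cosh l]) (mul_pos y.im_pos x.im_pos).le
  exact (abs_le_of_sq_le_sq' (by rw [sq_abs]; linarith) (abs_nonneg _)).2

theorem core (D : Dat r l e') (hu : NP r e e1 φ g) (ha : NP r e e1 ψ a) (he : 0 ≤ e)
    {s t0 t3 α η ι δ ρ B T : ℝ} {M j k N : ℕ} (g00 : g 0 0 = t0 + s) (g11 : g 1 1 = t0 - s)
    (g01 : g 0 1 = t3) (g10 : g 1 0 = -t3) (ht0 : 0 < t0) (ht3 : |t3| ≤ s / 10) (s0 : 0 < s)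
    (s1 : s ≤ 1 / 1000) (a00 : |a 0 0 - 1| ≤ α / 10) (a11 : |a 1 1 - 1| ≤ α / 10)
    (a01 : a 0 1 = α) (a10 : |a 1 0| ≤ α) (α0 : 0 < α) (α1 : α ≤ s) (hl : 2 ≤ l)
    (hη : e1 + e * (T + 4) ≤ η) (hη1 : η ≤ s ^ 2 * α / 8000) (hι : 2 * Real.exp (-l) ≤ ι)
    (hι1 : ι ≤ η * δ) (δ1 : δ ≤ 1)
    (hδ : δ ^ 2 + ι ^ 2 ≤ 2 * Real.exp (-T) ^ 2 * (Real.cosh l - 1)) (hρ : 0 < ρ)
    (hρ1 : ρ ≤ s * α / 2000) (hB : ∀ p, |p| ≤ 1 / 5 → dist (pt p ρ hρ) I ≤ B)
    (hB1 : 257 * Real.exp (B + 1 - l) ≤ 1) (hT : 2 * B + l + 2 ≤ T) (hN : N * (20 * s) ≤ 1 / 4)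
    (hN1 : 4 + k * (2 * (2 ^ j * (M + 1)) + 4 * M + 2) ≤ N) (hM : 1 ≤ 400⁻¹ * (M ^ 2 * s))
    (hM1 : 20 * (M * s) ≤ 1) (hj : (20 * (M * s)) ^ j * (3 * α) < δ)
    (hk : 105 * s ^ 2 * α < 2 ^ k * δ) : False := by
  have T0 : 0 ≤ T := by linarith only [dist_nonneg.trans (hB 0 (by norm_num)), hl, hT]
  have e0 : 0 ≤ e1 := dist_nonneg.trans (hu.n1 I (by simp))
  have eT : 0 ≤ e * T := by positivity
  have η0 : 0 ≤ η := by linarith only [he, hη, e0, eT]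
  have sα : s * α ≤ α / 1000 := by linarith only [mul_le_mul_of_nonneg_right s1 α0.le]
  have sα2 : s ^ 2 * α ≤ s * α / 1000 := by
    linarith only [mul_le_mul_of_nonneg_right s1 (mul_pos s0 α0).le]
  have η2 : 8000 * η ≤ α := by linarith only [hη1, hρ, hρ1, sα, sα2]
  have ιη : ι ≤ η := hι1.trans (mul_le_of_le_one_right η0 δ1)
  have det := det_eq g
  rw [g00, g11, g01, g10] at det
  obtain ⟨t01, t02⟩ := num_t0 det ht0 ht3 s0 s1
  have sg : Sm g (2 * s) := by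
    rw [Sm, g00, g11, g01, g10, abs_neg]
    exact ⟨abs_le.2 ⟨by linarith only [α1, hρ, hρ1, sα, t01], by linarith only [α1, hρ, hρ1, sα, t02]⟩, abs_le.2 ⟨by linarith only [α1, hρ, hρ1, sα, t01], by linarith only [α1, hρ, hρ1, sα, t02]⟩, by linarith only [ht3, α1, hρ, hρ1, sα],
      by linarith only [ht3, α1, hρ, hρ1, sα]⟩
  have sa : Sm a (2 * s) :=
    ⟨by linarith only [a00, α1, hρ, hρ1, sα], by linarith only [a11, α1, hρ, hρ1, sα], by rw [a01, abs_of_pos α0]; linarith only [α1, hρ, hρ1, sα], by linarith only [a10, α1, hρ, hρ1, sα]⟩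
  have hl2 : 2 * (7 * s) + e * (1 + 7 * s) < l := by
    linarith only [mul_le_mul_of_nonneg_left s1 he, s1, α1, hl, hη, hη1, hρ, hρ1, e0, eT, sα, sα2]
  obtain ⟨U, hU⟩ := D.act hu.gd he (hu.dI sg (by linarith only [he, α1, hη, hη1, hρ, hρ1, eT, sα, sα2])) (hu.symm.dI sg.inv (by linarith only [he, α1, hη, hη1, hρ, hρ1, eT, sα, sα2])) hl2
  obtain ⟨A, hA⟩ := D.act ha.gd he (ha.dI sa (by linarith only [he, α1, hη, hη1, hρ, hρ1, eT, sα, sα2])) (ha.symm.dI sa.inv (by linarith only [he, α1, hη, hη1, hρ, hρ1, eT, sα, sα2])) hl2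
  have s7 : 7 * s ≤ 1 := by linarith only [s1]
  have mono : Monotone (RR r (2 * B + l + 1) (20 * s)) := fun n m h P hP => by
    have : (n : ℝ) * (20 * s) ≤ m * (20 * s) := by gcongr
    exact ⟨by linarith only [hP.1, this], hP.2.1, by linarith only [hP.2.2, this]⟩
  have reg := fun P (hP : P ∈ RR r (2 * B + l + 1) (20 * s) N) =>
    D.reg hN (T := T) (by linarith only [hT]) hι hP
  have sep : ∀ x ∈ RR r (2 * B + l + 1) (20 * s) N, ∀ y ∈ RR r (2 * B + l + 1) (20 * s) N, x ≠ y →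
      δ ≤ |x.1.re - y.1.re| := fun x hx y hy hxy =>
    D.gap (by linarith only [hl]) hδ (reg x hx).1 (reg y hy).1 (D.eqv.trans y.2 (D.eqv.symm x.2))
      fun h => hxy (Subtype.ext h.symm)
  have gap : ∀ x ∈ RR r (2 * B + l + 1) (20 * s) N, ∀ y ∈ RR r (2 * B + l + 1) (20 * s) N, x ≠ y →
      x.1.re ≤ y.1.re → ι ≤ η * (y.1.re - x.1.re) := fun x hx y hy hxy h => by
    have := sep x hx y hy hxy
    rw [abs_sub_comm, abs_of_nonneg (sub_nonneg.2 h)] at this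
    exact hι1.trans (mul_le_mul_of_nonneg_left this η0)
  have n1 : 2 * s ≤ 1 / 4 := by linarith only [s1]
  have n2 : η ≤ 1 / 2000 := by linarith only [s1, α1, hη1, sα, sα2]
  have n3 : ι ≤ 1 / 48 := by linarith only [s1, α1, hη1, sα, sα2, ιη]
  have n4 : 4500 * η ≤ s := by linarith only [α1, hη1, hρ, hρ1, sα, sα2]
  have S : Sysm (fun P : {P // r P I} => P.1.re) (RR r (2 * B + l + 1) (20 * s)) N U A s (20 * s)
      α δ := by
    refine ⟨s0, by linarith only [α1, hρ, hρ1, sα], ?_, mono, fun n hn x hx => ?_, fun n hn x hx => ?_, sep,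
      fun x hx y hy h => ?_, fun x hx y hy h => ?_, fun x hx => ?_⟩
    · refine (pow_le_pow_left₀ (by linarith only [α1, hρ, hρ1, sα]) (show _ ≤ Real.exp (20 * s) by
        linarith only [Real.add_one_le_exp (20 * s)]) N).trans ?_
      rw [← Real.exp_nat_mul, ← Real.le_log_iff_exp_le two_pos]
      linarith only [Real.log_two_gt_d9, hN]
    · have := reg x (mono hn.le hx)
      exact ⟨hu.step he sg s1 hη (by linarith only [α1, hη1, hρ, hρ1, sα, sα2]) ιη hx this (hU x).1,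
        hu.symm.step he sg.inv s1 hη (by linarith only [α1, hη1, hρ, hρ1, sα, sα2]) ιη hx this (hU x).2⟩
    · have := reg x (mono hn.le hx)
      exact ⟨ha.step he sa s1 hη (by linarith only [α1, hη1, hρ, hρ1, sα, sα2]) ιη hx this (hA x).1,
        ha.symm.step he sa.inv s1 hη (by linarith only [α1, hη1, hρ, hρ1, sα, sα2]) ιη hx this (hA x).2⟩
    · rcases eq_or_ne x y with rfl | hxy
      · simp
      obtain ⟨b1, b2⟩ := hu.slope (lo := 1 - 6 / 5 * s) (hi := 1 - 4 / 5 * s) he sg n1 hη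
        n2 n3 (fun t ht => by
          have : |t3 * t| ≤ s / 10 := by
            rw [abs_mul]; exact (mul_le_of_le_one_right (abs_nonneg _) ht).trans ht3
          rw [g10, g11]
          constructor <;> linarith only [(abs_le.1 this).1, (abs_le.1 this).2, t01, t02, s0])
        (by linarith only [s1]) (by linarith only [s0]) (reg x hx).1 (reg x hx).2.1
        ((hU x).1.trans s7) (reg y hy).1 (reg y hy).2.1 ((hU y).1.trans s7) (gap x hx y hy hxy h)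
      exact num_U s0 s1 n4 (sub_nonneg.2 h) b1 b2
    · rcases eq_or_ne x y with rfl | hxy
      · simp
      obtain ⟨b1, b2⟩ := ha.slope (lo := 1 - 2 * (2 * s)) (hi := 1 + 2 * (2 * s)) he sa n1
        hη n2 n3 (fun t ht => sa.den ht) (by linarith only [s1]) (by linarith only [s1])
        (reg x hx).1 (reg x hx).2.1 ((hA x).1.trans s7) (reg y hy).1
        (reg y hy).2.1 ((hA y).1.trans s7) (gap x hx y hy hxy h)
      exact num_A s0 s1 n4 (sub_nonneg.2 h) b1 b2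
    · exact ha.mvA he sa s1 a00 a11 a01 a10 α0 α1 hη η2 ιη (reg x hx).1 (reg x hx).2.1
        ((hA x).1.trans s7)
  have t31 := abs_le.1 ht3
  obtain ⟨p, ⟨p1, p2⟩, p3⟩ := intermediate_value_Icc (show (-(1 / 5) : ℝ) ≤ 1 / 5 by norm_num)
    (f := fun t : ℝ => 2 * s * t + t3 + t3 * t ^ 2) (by fun_prop)
    (show (0 : ℝ) ∈ _ from ⟨by linarith only [t31.2, s0], by linarith only [t31.1, s0]⟩)
  obtain ⟨q, q1, q2, q3, q4⟩ := D.near_pt hl p hρ (hB p (abs_le.2 ⟨p1, p2⟩)) hB1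
  have hq : (⟨q, q1⟩ : {P // r P I}) ∈ RR r (2 * B + l + 1) (20 * s) 0 :=
    ⟨abs_le.2 ⟨by simp only; linarith only [(abs_le.1 q2).1, s1, α1, hρ1, sα, p1],
      by simp only; linarith only [(abs_le.1 q2).2, s1, α1, hρ1, sα, p2]⟩, by simp only; linarith only [s1, α1, hρ1, sα, q3], by simpa using q4⟩
  refine S.false hN1 hq ?_ α0 hM hM1 hj hk
  have rq := reg _ (mono (Nat.zero_le N) hq)
  exact hu.vq he sg g00 g11 g01 g10 ht3 s0 s1 hη η0 hη1 n2 ιη hρ hρ1 (abs_le.2 ⟨p1, p2⟩) p3 rq.1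
    rq.2.1 ((hU _).1.trans s7) q2

end Pool.Agent.MP_7dc785_an

end

section

/-!
Choice of the small hyperbolic and the small transverse almost isometry by pigeonholing.
-/

namespace Pool.Agent.MP_7dc785_an

open Set Metric UpperHalfPlane
open scoped MatrixGroups ComplexConjugate

variable {r : ℍ → ℍ → Prop} {l e e1 : ℝ} {φ ψ : ℍ ≃ₜ ℍ} {g a : SL(2, ℝ)}

/-- the conjugated relation -/
def cr (r : ℍ → ℍ → Prop) (k : SL(2, ℝ)) (z w : ℍ) : Prop := r (k • z) (k • w)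

/-- the conjugated map -/
noncomputable def cj (k : SL(2, ℝ)) (φ : ℍ ≃ₜ ℍ) : ℍ ≃ₜ ℍ :=
  (Homeomorph.smul k).trans (φ.trans (Homeomorph.smul k).symm)

theorem Gd.conj (h : Gd r e φ) (k : SL(2, ℝ)) : Gd (cr r k) e (cj k φ) :=
  ⟨h.q1.smul k⁻¹ k, h.q2.smul k⁻¹ k, fun z w => by
    change _ ↔ r (k • k⁻¹ • φ (k • z)) (k • k⁻¹ • φ (k • w))
    rw [smul_inv_smul, smul_inv_smul]
    exact h.pres _ _⟩

theorem Dat.conj (D : Dat r l e) (k : SL(2, ℝ)) : Dat (cr r k) l e := by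
  refine ⟨⟨fun _ => D.eqv.refl _, D.eqv.symm, D.eqv.trans⟩, fun z w h hne => ?_,
    fun y P w h => ?_, fun y => ?_, fun z w => ?_⟩
  · simpa using D.sep _ _ h fun e => hne (MulAction.injective k e)
  · obtain ⟨P', a, b⟩ := D.shift _ _ (k • w) h
    refine ⟨k⁻¹ • P', by simpa [cr] using a, ?_⟩
    rw [← dist_smul k, smul_inv_smul, b, dist_smul]
  · obtain ⟨P, Q, a, b, c, d, f⟩ := D.pair (k • y)
    refine ⟨k⁻¹ • P, k⁻¹ • Q, by simpa [cr] using a, by simpa [cr] using b, ?_, ?_, by simpa using f⟩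
    · rwa [← dist_smul k, smul_inv_smul]
    · rwa [← dist_smul k, smul_inv_smul]
  · obtain ⟨φ, a, b⟩ := D.trans (k • z) (k • w)
    refine ⟨_, a.conj k, ?_⟩
    change k⁻¹ • φ (k • z) = w
    rw [b, inv_smul_smul]

theorem np_conj (h : Gd r e φ) (k : SL(2, ℝ))
    (n1 : ∀ z, dist z (k • I) ≤ 1 → dist (φ z) (g • z) ≤ e1)
    (n2 : ∀ z, dist z (k • I) ≤ 1 → dist (φ.symm z) (g⁻¹ • z) ≤ e1) :
    NP (cr r k) e e1 (cj k φ) (k⁻¹ * g * k) := by
  refine ⟨h.conj k, fun z hz => ?_, fun z hz => ?_⟩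
  · change dist (k⁻¹ • φ (k • z)) _ ≤ _
    rw [mul_smul, mul_smul, dist_smul]
    exact n1 _ (by simpa using hz)
  · change dist (k⁻¹ • φ.symm (k • z)) _ ≤ _
    rw [mul_inv_rev, mul_inv_rev, inv_inv, mul_smul, mul_smul, dist_smul]
    exact n2 _ (by simpa using hz)

/-- `φ` is close to the isometry `g ∘ rf s` -/
def Nm (r : ℍ → ℍ → Prop) (e : ℝ) (φ : ℍ ≃ₜ ℍ) (g : SL(2, ℝ)) (s : Bool) : Prop :=
  Gd r e φ ∧ g • I = φ I ∧ ∀ w, dist w I ≤ 5 → dist (φ w) (g • rf s w) ≤ 10 ^ 8 * e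

theorem Dat.nm (D : Dat r l e) (he : 0 ≤ e) (he1 : e ≤ 1 / 10 ^ 5) (y : ℍ) :
    ∃ φ g s, Nm r e φ g s ∧ g • I = y := by
  obtain ⟨φ, a, b⟩ := D.trans I y
  obtain ⟨g, s, c, d⟩ := normal a.q1 he he1
  exact ⟨φ, g, s, ⟨a, c, d⟩, c.trans b⟩

theorem Nm.gd {s : Bool} (h : Nm r e φ g s) (h' : Nm r e ψ a s) (he : 0 ≤ e) (he1 : e ≤ 1) :
    Gd r (4 * e) (ψ.symm.trans φ) :=
  ⟨(QI.comp he he1 h.1.q1 h'.1.q2 :), (QI.comp he he1 h'.1.q1 h.1.q2 :),
    fun z w => (h'.1.symm.pres z w).trans (h.1.pres _ _)⟩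

theorem Nm.cl {s : Bool} (h : Nm r e φ g s) (h' : Nm r e ψ a s) (he : 0 ≤ e) (he1 : e ≤ 1) {y : ℍ}
    (hy : dist y (a • I) ≤ 1) (z : ℍ) (hz : dist z y ≤ 1) :
    dist (φ (ψ.symm z)) ((g * a⁻¹) • z) ≤ 2 * 10 ^ 8 * e := by
  have b := h'.1.q2.ub he (a := z) (b := ψ I) (T := 2)
    (by rw [← h'.2.1]; linarith [dist_triangle z y (a • I)])
  rw [ψ.symm_apply_apply] at b
  have c := h'.2.2 _ (b.trans (by linarith))
  rw [ψ.apply_symm_apply, ← dist_smul (g * a⁻¹), smul_smul, inv_mul_cancel_right] at c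
  linarith [h.2.2 _ (b.trans (by linarith only [he1])), dist_triangle_right (φ (ψ.symm z)) ((g * a⁻¹) • z)
    (g • rf s (ψ.symm z))]

theorem pigeon {ι : Type} [Fintype ι] (Z : ι → ℂ) (b : ι → Bool) {μ : ℝ} (μ0 : 0 < μ) (μ1 : μ ≤ 1)
    (h : 2 * (7 / μ + 1) < Fintype.card ι) : ∃ i j, i ≠ j ∧ b i = b j ∧
      |(Z i * conj (Z j)).im| ≤ μ * (‖Z i‖ * ‖Z j‖) ∧ ‖Z i‖ * ‖Z j‖ / 2 ≤ (Z i * conj (Z j)).re := by
  have p : ∀ i, 0 ≤ ((Z i).arg + Real.pi) / μ := fun i =>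
    div_nonneg (by linarith only [Complex.neg_pi_lt_arg (Z i)]) μ0.le
  obtain ⟨i, -, j, -, h1, h2⟩ := Finset.exists_ne_map_eq_of_card_lt_of_maps_to
    (s := Finset.univ) (t := Finset.univ ×ˢ Finset.range (⌊7 / μ⌋₊ + 1))
    (f := fun i => (b i, ⌊((Z i).arg + Real.pi) / μ⌋₊)) (by
      have := Nat.floor_le (show 0 ≤ 7 / μ by positivity)
      rw [Finset.card_product, Finset.card_range, Finset.card_univ, Finset.card_univ,
        Fintype.card_bool, ← Nat.cast_lt (α := ℝ)]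
      push_cast; linarith) fun i _ => by
      simp only [Finset.coe_product, Finset.coe_univ, Finset.coe_range, mem_prod, mem_univ,
        true_and, mem_Iio, Nat.lt_succ_iff]
      gcongr
      linarith only [Complex.arg_le_pi (Z i), Real.pi_lt_d2]
  obtain ⟨h2, h3⟩ := Prod.ext_iff.1 h2
  simp only at h2 h3
  have a1 := Nat.floor_le (p i)
  have a2 := Nat.floor_le (p j)
  have a3 := Nat.lt_floor_add_one (((Z i).arg + Real.pi) / μ)
  have a4 := Nat.lt_floor_add_one (((Z j).arg + Real.pi) / μ)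
  rw [h3] at a1 a3
  rw [le_div_iff₀ μ0] at a1 a2
  rw [div_lt_iff₀ μ0] at a3 a4
  have d : |(Z i).arg - (Z j).arg| ≤ μ := abs_le.2 ⟨by linarith only [a1, a4], by linarith only [a2, a3]⟩
  have n := mul_nonneg (norm_nonneg (Z i)) (norm_nonneg (Z j))
  refine ⟨i, j, h1, h2, ?_, ?_⟩
  · rw [show (Z i * conj (Z j)).im = Real.sin ((Z i).arg - (Z j).arg) * (‖Z i‖ * ‖Z j‖) by
      rw [Real.sin_sub, Complex.mul_im, Complex.conj_re, Complex.conj_im,
        ← Complex.norm_mul_cos_arg, ← Complex.norm_mul_cos_arg, ← Complex.norm_mul_sin_arg,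
        ← Complex.norm_mul_sin_arg]; ring, abs_mul, abs_of_nonneg n]
    exact mul_le_mul_of_nonneg_right (Real.abs_sin_le_abs.trans d) n
  · rw [show (Z i * conj (Z j)).re = Real.cos ((Z i).arg - (Z j).arg) * (‖Z i‖ * ‖Z j‖) by
      rw [Real.cos_sub, Complex.mul_re, Complex.conj_re, Complex.conj_im,
        ← Complex.norm_mul_cos_arg, ← Complex.norm_mul_cos_arg, ← Complex.norm_mul_sin_arg,
        ← Complex.norm_mul_sin_arg]; ring]
    have := sq_le_sq' (abs_le.1 (d.trans μ1)).1 (abs_le.1 (d.trans μ1)).2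
    linarith only [mul_le_mul_of_nonneg_right (show 1 / 2 ≤ Real.cos ((Z i).arg - (Z j).arg) by
      linarith only [Real.one_sub_sq_div_two_le_cos (x := (Z i).arg - (Z j).arg), this]) n]

/-- coordinates in `SU(1,1)` -/
noncomputable def cA (g : SL(2, ℝ)) : ℂ := ⟨(g 0 0 + g 1 1) / 2, (g 0 1 - g 1 0) / 2⟩

/-- coordinates in `SU(1,1)` -/
noncomputable def cB (g : SL(2, ℝ)) : ℂ := ⟨(g 0 0 - g 1 1) / 2, (g 0 1 + g 1 0) / 2⟩

theorem mul_ent (g h : SL(2, ℝ)) (i j : Fin 2) : (g * h) i j = g i 0 * h 0 j + g i 1 * h 1 j := by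
  simp only [Matrix.SpecialLinearGroup.coe_mul, Matrix.mul_apply, Fin.sum_univ_two, Fin.isValue]

theorem cA_mul (g h : SL(2, ℝ)) : cA (g * h) = cA g * cA h + conj (cB g) * cB h := by
  simp only [cA, cB, mul_ent, Complex.ext_iff]
  simp only [Fin.isValue, Complex.add_re, Complex.mul_re, Complex.conj_re, Complex.conj_im, neg_mul, sub_neg_eq_add, Complex.add_im, Complex.mul_im]
  constructor <;> ring

theorem cB_mul (g h : SL(2, ℝ)) : cB (g * h) = conj (cA g) * cB h + cB g * cA h := by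
  simp only [cA, cB, mul_ent, Complex.ext_iff]
  simp only [Fin.isValue, Complex.add_re, Complex.mul_re, Complex.conj_re, Complex.conj_im, neg_mul, sub_neg_eq_add, Complex.add_im, Complex.mul_im]
  constructor <;> ring

theorem cA_inv (g : SL(2, ℝ)) : cA g⁻¹ = conj (cA g) := by
  obtain ⟨a, b, c, d⟩ := inv_ent g
  simp only [cA, a, b, c, d, Complex.ext_iff]
  simp only [Fin.isValue, Complex.conj_re, ne_eq, OfNat.ofNat_ne_zero, not_false_eq_true, div_left_inj', sub_neg_eq_add, Complex.conj_im]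
  constructor <;> ring

theorem cB_inv (g : SL(2, ℝ)) : cB g⁻¹ = -cB g := by
  obtain ⟨a, b, c, d⟩ := inv_ent g
  simp only [cB, a, b, c, d, Complex.ext_iff]
  simp only [Fin.isValue, Complex.neg_re, Complex.neg_im]
  constructor <;> ring

theorem cA_sq (g : SL(2, ℝ)) : ‖cA g‖ ^ 2 = 1 + ‖cB g‖ ^ 2 := by
  rw [Complex.sq_norm, Complex.sq_norm, cA, cB, Complex.normSq_mk, Complex.normSq_mk]
  linear_combination det_eq g

theorem cB_sq (g h : SL(2, ℝ)) : ((h • I).re - (g • I).re) ^ 2 + ((h • I).im - (g • I).im) ^ 2 =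
    4 * ((g • I).im * (h • I).im) * ‖cB (g⁻¹ * h)‖ ^ 2 := by
  have := dp_I (g⁻¹ * h)
  rw [dp, ← dist_smul g, smul_smul, mul_inv_cancel_left] at this
  rw [cosh_N, Complex.sq_norm, cB, Complex.normSq_mk]
  linear_combination (g • I).im * (h • I).im * this

theorem cA_rot (θ : ℝ) : cA (rot θ) = Complex.exp (θ * Complex.I) ∧ cB (rot θ) = 0 := by
  simp [cA, cB, rot, Complex.ext_iff, Complex.exp_ofReal_mul_I_re, Complex.exp_ofReal_mul_I_im]

theorem rot_conj (h : SL(2, ℝ)) (θ : ℝ) : cA ((rot θ)⁻¹ * h * rot θ) = cA h ∧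
    cB ((rot θ)⁻¹ * h * rot θ) = cB h * Complex.exp (2 * θ * Complex.I) := by
  have t := cA_rot θ
  have := Complex.mul_conj (Complex.exp (θ * Complex.I))
  rw [Complex.normSq_eq_norm_sq, Complex.norm_exp_ofReal_mul_I, one_pow, Complex.ofReal_one] at this
  rw [cB_mul, cB_mul, cA_mul, cA_mul, cA_inv, cB_inv, t.1, t.2, mul_assoc 2, two_mul,
    Complex.exp_add]
  simp only [neg_zero, map_zero, zero_mul, mul_zero, add_zero, zero_add, Complex.conj_conj]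
  exact ⟨by linear_combination (cA h) * this, by ring⟩

theorem grid_ge {n : ℕ} {i j : Fin n} (h : i ≠ j) : (1 : ℝ) ≤ ((i : ℕ) - (j : ℕ) : ℝ) ^ 2 := by
  have : (i : ℤ) - (j : ℤ) ≠ 0 := by omega
  exact_mod_cast (show (1 : ℤ) ≤ ((i : ℕ) - (j : ℕ) : ℤ) ^ 2 from Int.add_one_le_of_lt
    (by positivity : (0 : ℤ) < _))

theorem grid_le {n : ℕ} (i : Fin n) {u : ℝ} (hu : 0 ≤ u) : 0 ≤ (i : ℕ) * u ∧ (i : ℕ) * u ≤ n * u :=
  ⟨by positivity, by gcongr; exact i.2.le⟩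

theorem Dat.pickU (D : Dat r l e) (he : 0 ≤ e) (he1 : e ≤ 1 / 10 ^ 5) {κ : ℝ} (κ0 : 0 < κ)
    (κ1 : κ ≤ 1 / 20) : ∃ k φ g, NP (cr r k) (4 * e) (2 * 10 ^ 8 * e) φ g ∧ 0 < (cA g).re ∧
      (cB g).im = 0 ∧ |(cA g).im| ≤ (cB g).re / 10 ∧ κ ^ 2 / 12004 ≤ (cB g).re ∧ (cB g).re ≤ κ := by
  obtain ⟨n, n1, n2⟩ : ∃ n : ℕ, 3000 / κ ≤ n ∧ n * κ ≤ 3001 := by
    refine ⟨⌈3000 / κ⌉₊, Nat.le_ceil _, ?_⟩
    have := (Nat.ceil_lt_add_one (show 0 ≤ 3000 / κ by positivity)).le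
    rw [← le_div_iff₀ κ0]
    refine this.trans ?_
    rw [div_add_one κ0.ne']
    gcongr; linarith only [κ1]
  rw [div_le_iff₀ κ0] at n1
  have n0 : (0 : ℝ) < n := pos_of_mul_pos_left (by linarith only [κ0, κ1, n1]) κ0.le
  obtain ⟨u, hu⟩ : ∃ u, u = κ / n := ⟨_, rfl⟩
  have u0 : 0 < u := by rw [hu]; positivity
  have u1 : n * u = κ := by rw [hu]; field_simp
  have u2 : κ ^ 2 ≤ 3001 * u := by nlinarith only [κ1, n1, n2, u1]
  have u3 : 3000 * u ≤ κ ^ 2 := by nlinarith only [κ0, n1, u1]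
  choose φ g s h1 h2 using fun i : Fin n × Fin n =>
    D.nm he he1 (pt ((i.1 : ℕ) * u) (1 + (i.2 : ℕ) * u) (by positivity))
  obtain ⟨i, j, hij, hs, z1, z2⟩ := pigeon (fun i => cA (g i)) s (μ := u / 200) (by positivity)
    (by nlinarith only [κ1, n1, u1]) (by
      rw [Fintype.card_prod, Fintype.card_fin, Nat.cast_mul, div_add_one (by positivity),
        mul_div_assoc', div_lt_iff₀ (by positivity)]
      nlinarith only [κ1, n1, u1])
  have gb : ∀ i, ‖cB (g i)‖ ≤ κ ∧ 1 ≤ ‖cA (g i)‖ ∧ ‖cA (g i)‖ ≤ 2 := fun i => by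
    have a := cB_sq 1 (g i)
    have b := cA_sq (g i)
    obtain ⟨c1, c2⟩ := grid_le i.1 u0.le
    obtain ⟨c3, c4⟩ := grid_le i.2 u0.le
    rw [h2, one_smul, inv_one, one_mul, pt_re, pt_im, I_re, I_im] at a
    have d : ‖cB (g i)‖ ^ 2 ≤ κ ^ 2 := by nlinarith only [u1, a, c1, c2, c3, c4]
    exact ⟨(abs_le_of_sq_le_sq' d κ0.le).2, (abs_le_of_sq_le_sq' (by nlinarith only [b])
      (norm_nonneg _)).2, (abs_le_of_sq_le_sq' (by nlinarith only [κ1, n1, b, d]) two_pos.le).2⟩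
  obtain ⟨h, hh⟩ : ∃ h, h = (g j)⁻¹ * g i := ⟨_, rfl⟩
  have s1 : u / 4 ≤ ‖cB h‖ ∧ ‖cB h‖ ≤ κ := by
    have a := cB_sq (g j) (g i)
    obtain ⟨c1, c2⟩ := grid_le i.1 u0.le
    obtain ⟨c3, c4⟩ := grid_le i.2 u0.le
    obtain ⟨d1, d2⟩ := grid_le j.1 u0.le
    obtain ⟨d3, d4⟩ := grid_le j.2 u0.le
    rw [h2, h2, ← hh, pt_re, pt_im, pt_re, pt_im] at a
    have f1 : 1 * 1 ≤ (1 + (j.2 : ℕ) * u) * (1 + (i.2 : ℕ) * u) := by gcongr <;> linarith only [d3, c3]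
    have f2 : (1 + (j.2 : ℕ) * u) * (1 + (i.2 : ℕ) * u) ≤ 2 * 2 := by gcongr <;> linarith only [κ0, κ1, u1, d4, c4]
    have f3 : 1 ≤ ((i.1 : ℕ) - (j.1 : ℕ) : ℝ) ^ 2 + ((i.2 : ℕ) - (j.2 : ℕ) : ℝ) ^ 2 := by
      by_cases c : i.1 = j.1
      · linarith only [grid_ge fun d => hij (Prod.ext c d), sq_nonneg ((i.1 : ℕ) - (j.1 : ℕ) : ℝ)]
      · linarith only [grid_ge c, sq_nonneg ((i.2 : ℕ) - (j.2 : ℕ) : ℝ)]
    have f4 := mul_le_mul_of_nonneg_right f1 (sq_nonneg ‖cB h‖)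
    have f5 := mul_le_mul_of_nonneg_right f2 (sq_nonneg ‖cB h‖)
    have f6 := mul_le_mul_of_nonneg_right f3 (sq_nonneg u)
    have f7 : ((i.1 : ℕ) * u - (j.1 : ℕ) * u) ^ 2 ≤ κ ^ 2 := sq_le_sq' (by linarith only [u1, c1, d2]) (by linarith only [u1, c2, d1])
    have f8 : ((i.2 : ℕ) * u - (j.2 : ℕ) * u) ^ 2 ≤ κ ^ 2 := sq_le_sq' (by linarith only [u1, c3, d4]) (by linarith only [u1, c4, d3])
    exact ⟨(abs_le_of_sq_le_sq' (by linarith only [a, f5, f6]) (norm_nonneg _)).2,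
      (abs_le_of_sq_le_sq' (by linarith only [u0, u3, a, f4, f7, f8]) κ0.le).2⟩
  have m : cA (g i) * conj (cA (g j)) =
      ((‖cA (g j)‖ ^ 2 : ℝ) : ℂ) * cA h + conj (cA (g j) * cB (g j)) * cB h := by
    rw [show g i = g j * h by rw [hh, mul_inv_cancel_left], cA_mul, map_mul, Complex.sq_norm,
      ← Complex.mul_conj]
    ring
  obtain ⟨b1, b2, b3⟩ := gb j
  obtain ⟨-, b4, b5⟩ := gb i
  have m1 : ‖conj (cA (g j) * cB (g j)) * cB h‖ ≤ ‖cA (g j)‖ * (1 / 20) * ‖cB h‖ := by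
    rw [norm_mul, Complex.norm_conj, norm_mul]; gcongr; linarith only [κ1, b1]
  have m2 := abs_le.1 ((Complex.abs_re_le_norm _).trans m1)
  have m3 := abs_le.1 ((Complex.abs_im_le_norm _).trans m1)
  rw [m, Complex.add_im, Complex.im_ofReal_mul, abs_le] at z1
  rw [m, Complex.add_re, Complex.re_ofReal_mul] at z2
  have r1 : 0 < (cA h).re := by
    refine pos_of_mul_pos_right (a := ‖cA (g j)‖ ^ 2) ?_ (sq_nonneg _)
    nlinarith only [m2.2, κ1, z2, s1, b2, b4]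
  have r2 : |(cA h).im| ≤ ‖cB h‖ / 10 := by
    refine le_of_mul_le_mul_left ?_ (show 0 < ‖cA (g j)‖ ^ 2 by positivity)
    have k1 : u / 200 * (‖cA (g i)‖ * ‖cA (g j)‖) ≤ 4 * ‖cB h‖ / 200 * (2 * ‖cA (g j)‖) := by
      gcongr; linarith only [s1]
    have k2 := mul_le_mul_of_nonneg_left b2 (mul_nonneg (norm_nonneg (cA (g j))) (norm_nonneg (cB h)))
    have k3 := mul_nonneg (norm_nonneg (cA (g j))) (norm_nonneg (cB h))
    rw [← abs_of_nonneg (sq_nonneg ‖cA (g j)‖), ← abs_mul, abs_of_nonneg (sq_nonneg ‖cA (g j)‖),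
      abs_le]
    constructor <;> linarith only [z1.1, z1.2, m3.1, m3.2, m2, k1, k2]
  obtain ⟨e2, e3⟩ := rot_conj h (-(cB h).arg / 2)
  have e1 : (g j * rot (-(cB h).arg / 2))⁻¹ * (g i * (g j)⁻¹) * (g j * rot (-(cB h).arg / 2)) =
      (rot (-(cB h).arg / 2))⁻¹ * h * rot (-(cB h).arg / 2) := by rw [hh]; group
  replace e3 : cB ((rot (-(cB h).arg / 2))⁻¹ * h * rot (-(cB h).arg / 2)) = ‖cB h‖ := by
    rw [e3]
    nth_rw 1 [← Complex.norm_mul_exp_arg_mul_I (cB h)]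
    rw [mul_assoc, ← Complex.exp_add]
    convert mul_one _
    rw [Complex.exp_eq_one_iff]
    exact ⟨0, by push_cast; ring⟩
  have h3 := h1 j
  rw [← hs] at h3
  have e1' : e ≤ 1 := by linarith only [he1, κ0, κ1]
  have d1 : dist (g j • I) (g i • I) ≤ 1 := by
    have := dp_I h
    rw [dp, ← dist_smul (g j), smul_smul, hh, mul_inv_cancel_left, ← hh] at this
    have k := pow_le_pow_left₀ (norm_nonneg _) (s1.2.trans κ1) 2
    rw [Complex.sq_norm, cB, Complex.normSq_mk] at k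
    exact le_one_of_cosh (by linarith only [this, k])
  refine ⟨g j * rot (-(cB h).arg / 2), _, _, np_conj (g := g i * (g j)⁻¹) ((h1 i).gd h3 he e1') _
    ((h1 i).cl h3 he e1' (by rw [mul_smul, rot_I, dist_self]; norm_num)) ?_, ?_⟩
  · rw [mul_inv_rev, inv_inv]
    exact h3.cl (h1 i) he e1' (by rwa [mul_smul, rot_I])
  · rw [e1, e2, e3, Complex.ofReal_re]
    exact ⟨r1, Complex.ofReal_im _, r2, by linarith only [s1.1, u2], s1.2⟩

theorem ent_of_pt {x : ℝ} (h : g • I = pt x 1 one_pos) :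
    g 0 0 = x * g 1 0 + g 1 1 ∧ g 0 1 = x * g 1 1 - g 1 0 ∧ g 1 0 ^ 2 + g 1 1 ^ 2 = 1 := by
  have e := smul_coe g I
  rw [h, eq_div_iff (den_ne g I), Complex.ext_iff] at e
  simp [pt] at e
  exact ⟨by linarith only [e.2], by linarith only [e.1],
    by linear_combination det_eq g + g 1 1 * e.2 - g 1 0 * e.1⟩

theorem num_pA {τ u x y C S : ℝ} (τ1 : τ ≤ 1 / 20) (x0 : 0 ≤ x) (x1 : x ≤ τ) (y0 : 0 ≤ y)
    (y1 : y ≤ τ) (hu : u ≤ |x - y|) (h : C ^ 2 + S ^ 2 = 1) (hS : |S| ≤ τ) (hC : 1 / 2 ≤ C) :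
    |C + x * S - 1| ≤ |S| / 10 ∧ |C - y * S - 1| ≤ |S| / 10 ∧
      u / 6 ≤ max |(x - y) * C - (1 + x * y) * S| |S| ∧ |(x - y) * C - (1 + x * y) * S| ≤ 3 * τ := by
  have s0 := abs_nonneg S
  have c1 : C ≤ 1 := by nlinarith only [h]
  have c2 : 1 - C ≤ |S| / 20 := by nlinarith only [sq_abs S, τ1, h, hS, hC, s0]
  have a : ∀ x, 0 ≤ x → x ≤ τ → |x * S| ≤ |S| / 20 := fun x a b => by
    rw [abs_mul, abs_of_nonneg a]; nlinarith only [τ1, s0, b]
  have a1 := abs_le.1 (a x x0 x1)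
  have a2 := abs_le.1 (a y y0 y1)
  have b1 : |(1 + x * y) * S| ≤ 2 * |S| := by
    rw [abs_mul, abs_of_nonneg (by positivity)]; gcongr; nlinarith only [τ1, x0, x1, y1]
  have b2 : |(x - y) * C| = |x - y| * C := by rw [abs_mul, abs_of_nonneg (a := C) (by linarith only [τ1, hS, c2])]
  have b3 : |x - y| ≤ τ := abs_le.2 ⟨by linarith only [x0, y1], by linarith only [x1, y0]⟩
  have b4 := mul_le_mul_of_nonneg_left hC (abs_nonneg (x - y))
  have b5 := mul_le_mul_of_nonneg_left c1 (abs_nonneg (x - y))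
  refine ⟨abs_le.2 ⟨by linarith only [a1.1, c2], by linarith only [a1.2, s0, c1]⟩,
    abs_le.2 ⟨by linarith only [a2.2, c2], by linarith only [a2.1, s0, c1]⟩, ?_,
    by linarith only [abs_sub ((x - y) * C) ((1 + x * y) * S), hS, b1, b2, b3, b5]⟩
  linarith only [abs_sub_abs_le_abs_sub ((x - y) * C) ((1 + x * y) * S), le_max_left |(x - y) * C - (1 + x * y) * S| |S|, le_max_right |(x - y) * C - (1 + x * y) * S| |S|, hu, b1, b2, b4]

theorem Dat.pickA (D : Dat r l e) (he : 0 ≤ e) (he1 : e ≤ 1 / 10 ^ 5) {τ : ℝ} (τ0 : 0 < τ)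
    (τ1 : τ ≤ 1 / 20) : ∃ ψ a, NP r (4 * e) (2 * 10 ^ 8 * e) ψ a ∧ |a 0 0 - 1| ≤ |a 1 0| / 10 ∧
      |a 1 1 - 1| ≤ |a 1 0| / 10 ∧ τ ^ 2 / 102 ≤ max |a 0 1| |a 1 0| ∧ |a 0 1| ≤ 3 * τ ∧
      |a 1 0| ≤ 3 * τ := by
  obtain ⟨n, n1, n2⟩ : ∃ n : ℕ, 16 / τ ≤ n ∧ n * τ ≤ 17 := by
    refine ⟨⌈16 / τ⌉₊, Nat.le_ceil _, ?_⟩
    have := (Nat.ceil_lt_add_one (show 0 ≤ 16 / τ by positivity)).le
    rw [← le_div_iff₀ τ0]
    refine this.trans ?_
    rw [div_add_one τ0.ne']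
    gcongr; linarith only [τ1]
  rw [div_le_iff₀ τ0] at n1
  have n0 : (0 : ℝ) < n := pos_of_mul_pos_left (by linarith only [τ0, τ1, n1]) τ0.le
  obtain ⟨u, hu⟩ : ∃ u, u = τ / n := ⟨_, rfl⟩
  have u0 : 0 < u := by rw [hu]; positivity
  have u1 : n * u = τ := by rw [hu]; field_simp
  have u2 : τ ^ 2 ≤ 17 * u := by nlinarith only [τ1, n1, n2, u1]
  choose φ g s h1 h2 using fun i : Fin n => D.nm he he1 (pt ((i : ℕ) * u) 1 one_pos)
  obtain ⟨i, j, hij, hs, z1, z2⟩ := pigeon (fun i => ⟨g i 1 1, g i 1 0⟩) s τ0 (by linarith only [τ0, τ1]) (by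
    rw [Fintype.card_fin, div_add_one τ0.ne', mul_div_assoc', div_lt_iff₀ τ0]
    linarith only [τ0, τ1, n1])
  have nm : ∀ i, ‖(⟨g i 1 1, g i 1 0⟩ : ℂ)‖ = 1 := fun i => by
    rw [← sq_eq_sq₀ (norm_nonneg _) zero_le_one, Complex.sq_norm, Complex.normSq_mk]
    linarith only [(ent_of_pt (h2 i)).2.2]
  have d : ∀ i, dist I (g i • I) ≤ 1 := fun i => le_one_of_cosh (by
    obtain ⟨c1, c2⟩ := grid_le i u0.le
    rw [dist_comm, cosh_I, h2, pt_re, pt_im]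
    nlinarith only [τ1, u1, c1, c2])
  obtain ⟨a1, a2, a3⟩ := ent_of_pt (h2 i)
  obtain ⟨b1, b2, b3⟩ := ent_of_pt (h2 j)
  obtain ⟨c1, c2⟩ := grid_le i u0.le
  obtain ⟨c3, c4⟩ := grid_le j u0.le
  simp only [nm, Complex.mul_im, Complex.mul_re, Complex.conj_re, Complex.conj_im, mul_one] at z1 z2
  obtain ⟨k1, k2, k3, k4⟩ := num_pA (u := u) τ1 c1 (by linarith only [u1, c2]) c3 (by linarith only [u1, c4]) (by
      rw [← sub_mul, abs_mul, abs_of_pos u0]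
      exact le_mul_of_one_le_left u0.le ((one_le_sq_iff_one_le_abs _).1 (grid_ge hij)))
    (by linear_combination (g j 1 0 ^ 2 + g j 1 1 ^ 2) * a3 + b3) z1 z2
  have h3 := h1 j
  rw [← hs] at h3
  have e1 : e ≤ 1 := by linarith only [he1, τ0, τ1]
  obtain ⟨f1, f2, f3, f4⟩ := inv_ent (g j)
  refine ⟨_, g i * (g j)⁻¹, ⟨(h1 i).gd h3 he e1, (h1 i).cl h3 he e1 (d j), ?_⟩, ?_⟩
  · rw [mul_inv_rev, inv_inv]
    exact h3.cl (h1 i) he e1 (d i)
  · simp only [mul_ent, f1, f2, f3, f4, a1, a2, b1, b2]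
    refine ⟨?_, ?_, le_trans (by linarith only [u2]) (k3.trans_eq ?_), ?_, ?_⟩
    · convert k1 using 3 <;> ring
    · convert k2 using 3 <;> ring
    · congr 2 <;> ring
    · convert k4 using 2; ring
    · exact le_trans (le_of_eq (by congr 1; ring)) (z1.trans (by linarith only [τ0]))

end Pool.Agent.MP_7dc785_an

end

section

/-!
Choice of the constants.
-/

namespace Pool.Agent.MP_7dc785_an

open Set Metric UpperHalfPlane
open scoped MatrixGroups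

variable {r : ℍ → ℍ → Prop} {m e e' : ℝ} {φ ψ : ℍ ≃ₜ ℍ} {g a : SL(2, ℝ)}

theorem lam_le (hm : 300 ≤ m) : 225000 * m ^ 2 * Real.exp (-m) ≤ 1 := by
  have a := Real.pow_div_factorial_le_exp m (by linarith) 5
  have b : 300 ^ 3 ≤ m ^ 3 := by gcongr
  rw [Real.exp_neg, ← div_eq_mul_inv, div_le_one (Real.exp_pos m)]
  norm_num [Nat.factorial] at a
  linarith only [mul_le_mul_of_nonneg_right b (sq_nonneg m), a]

theorem num_M (hm : 300 ≤ m) {s : ℝ} (s0 : 0 < s) (s1 : s ≤ Real.exp (-m) ^ 4) :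
    ∃ M j k : ℕ, ((4 + k * (2 * (2 ^ j * (M + 1)) + 4 * M + 2) : ℕ) : ℝ) * (20 * s) ≤ 1 / 4 ∧
      1 ≤ 400⁻¹ * (M ^ 2 * s) ∧ 20 * (M * s) ≤ 1 ∧ (20 * (M * s)) ^ j ≤ Real.exp (-m ^ 2) ∧
      Real.exp (m ^ 2) ≤ 2 ^ k := by
  have a := lam_le hm
  have l0 := Real.exp_pos (-m)
  have m2 : 90000 ≤ m ^ 2 := by nlinarith only [hm]
  have l1 : 10 ^ 10 * Real.exp (-m) ≤ 1 := by nlinarith only [a, m2]
  obtain ⟨t, t0, rfl⟩ : ∃ t, 0 < t ∧ s = t ^ 2 := ⟨√s, Real.sqrt_pos.2 s0, (Real.sq_sqrt s0.le).symm⟩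
  have t1 : t ≤ Real.exp (-m) ^ 2 := (abs_le_of_sq_le_sq' (by linarith) (by positivity)).2
  have t2 : t ≤ Real.exp (-m) / 10 ^ 10 := by nlinarith only [a, l0, m2, t1]
  have t3 : t ^ 2 ≤ t := by nlinarith only [l1, t0, t2]
  have M1 := Nat.le_ceil (20 / t)
  have M2 := (Nat.ceil_lt_add_one (show 0 ≤ 20 / t by positivity)).le
  have j1 := Nat.le_ceil m
  have j2 := (Nat.ceil_lt_add_one (show 0 ≤ m by linarith only [hm, l1, t0, t2])).le
  have k1 := Nat.le_ceil (m ^ 2)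
  have k2 := (Nat.ceil_lt_add_one (sq_nonneg m)).le
  generalize ⌈20 / t⌉₊ = M at *
  generalize ⌈m⌉₊ = j at *
  generalize ⌈m ^ 2⌉₊ = k at *
  rw [div_le_iff₀ t0] at M1
  rw [div_add_one t0.ne', le_div_iff₀ t0] at M2
  have M3 : M * t ^ 2 ≤ 21 * t := by nlinarith only [t3, M2]
  have M4 : 20 * (M * t ^ 2) ≤ Real.exp (-m) := by linarith
  refine ⟨M, j, 2 * k, ?_, by nlinarith only [M1], by linarith, ?_, ?_⟩
  · have b : (2 : ℝ) ^ j * Real.exp (-m) ≤ 3 := by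
      calc (2 : ℝ) ^ j * Real.exp (-m) ≤ Real.exp 1 ^ j * Real.exp (-m) := by
            gcongr; linarith only [Real.add_one_le_exp 1]
        _ ≤ Real.exp 1 := by
            rw [← Real.exp_nat_mul, ← Real.exp_add, Real.exp_le_exp]; linarith only [j2]
        _ ≤ 3 := by linarith only [Real.exp_one_lt_d9, l1, t0, t2]
    have c : (2 : ℝ) ^ j * ((M + 1) * t ^ 2) ≤ 2 ^ j * (22 * Real.exp (-m) ^ 2) :=
      mul_le_mul_of_nonneg_left (by linarith only [t1, t3, M3]) (by positivity)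
    have d := mul_le_mul_of_nonneg_right b l0.le
    have f : (2 * k : ℝ) * ((2 * (2 ^ j * (M + 1)) + 4 * M + 2) * t ^ 2) ≤
        3 * m ^ 2 * (133 * Real.exp (-m)) :=
      mul_le_mul (by linarith only [m2, l1, t0, t2, k2]) (by linarith) (by positivity) (by positivity)
    push_cast
    linarith
  · calc _ ≤ Real.exp (-m) ^ j := by gcongr
      _ ≤ _ := by
        rw [← Real.exp_nat_mul, Real.exp_le_exp]; nlinarith only [hm, j1]
  · calc _ ≤ Real.exp 1 ^ k := by rw [← Real.exp_nat_mul, Real.exp_le_exp]; linarith only [k1]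
      _ ≤ _ := by
        rw [pow_mul]; gcongr; linarith only [Real.exp_one_lt_d9, l1, t0, t2]

theorem core1 (D : Dat r (m ^ 2) e') (hu : NP r (4 * e) (2 * 10 ^ 8 * e) φ g)
    (ha : NP r (4 * e) (2 * 10 ^ 8 * e) ψ a) (hm : 300 ≤ m) (he : 0 ≤ e)
    (he1 : e ≤ Real.exp (-m) ^ 39) (g1 : 0 < (cA g).re) (g2 : (cB g).im = 0)
    (g3 : |(cA g).im| ≤ (cB g).re / 10) (s0 : Real.exp (-m) ^ 9 ≤ (cB g).re)
    (s1 : (cB g).re ≤ Real.exp (-m) ^ 4) (a00 : |a 0 0 - 1| ≤ a 0 1 / 10)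
    (a11 : |a 1 1 - 1| ≤ a 0 1 / 10) (a10 : |a 1 0| ≤ a 0 1) (α0 : Real.exp (-m) ^ 19 ≤ a 0 1)
    (α1 : a 0 1 ≤ (cB g).re) : False := by
  have b := lam_le hm
  have l0 := Real.exp_pos (-m)
  have m2 : 300 * m ≤ m ^ 2 := by nlinarith only [hm]
  have l1 : 10 ^ 10 * Real.exp (-m) ≤ 1 := by nlinarith only [hm, b]
  have l2 : Real.exp (-m) ^ 4 ≤ Real.exp (-m) :=
    pow_le_of_le_one l0.le (by linarith only [l0, l1]) (by norm_num)
  have e4 : 6 ≤ Real.exp 2 := by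
    have := Real.add_one_le_exp 1
    rw [show (2 : ℝ) = 1 + 1 by norm_num, Real.exp_add]
    nlinarith only [Real.exp_one_gt_d9]
  have g00 : g 0 0 = (cA g).re + (cB g).re := by simp only [cA, cB]; ring
  have g11 : g 1 1 = (cA g).re - (cB g).re := by simp only [cA, cB]; ring
  have g01 : g 0 1 = (cA g).im := by simp only [cA, cB] at g2 ⊢; linarith only [g2]
  have g10 : g 1 0 = -(cA g).im := by simp only [cA, cB] at g2 ⊢; linarith only [g2]
  generalize (cB g).re = s at *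
  generalize hα : a 0 1 = α at *
  have s2 : 0 < s := lt_of_lt_of_le (by positivity) s0
  have α2 : 0 < α := lt_of_lt_of_le (by positivity) α0
  obtain ⟨M, j, k, n1, n2, n3, n4, n5⟩ := num_M hm s2 s1
  have η1 : Real.exp (-m) ^ 38 ≤ s ^ 2 * α / 8000 := by
    have : (Real.exp (-m) ^ 9) ^ 2 * Real.exp (-m) ^ 19 ≤ s ^ 2 * α := by gcongr
    linarith only [mul_le_mul_of_nonneg_left l1 (pow_pos l0 37).le, pow_pos l0 38, this]
  have ρ1 : 2 * Real.exp (-m) ^ 29 ≤ s * α / 2000 := by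
    have : Real.exp (-m) ^ 9 * Real.exp (-m) ^ 19 ≤ s * α := by gcongr
    linarith only [mul_le_mul_of_nonneg_left l1 (pow_pos l0 28).le, pow_pos l0 29, this]
  have ρ2 : s * α ≤ 1 * 1 := by gcongr <;> linarith only [l0, l1, l2, s1, α1]
  have δ1 : Real.exp (-m ^ 2) ≤ Real.exp (-(3 / 4 * m ^ 2)) := Real.exp_le_exp.2 (by linarith only [hm, m2])
  refine core D hu ha (by linarith only [he]) (η := s ^ 2 * α / 8000) (ι := 2 * Real.exp (-m ^ 2))
    (δ := Real.exp (-(3 / 4 * m ^ 2))) (ρ := s * α / 2000) (B := 29 * m) (T := 58 * m + m ^ 2 + 2)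
    g00 g11 g01 g10 g1 g3 s2 (by linarith only [l0, l1, l2, s1]) a00 a11 hα a10 α2 α1 (by linarith only [hm, l0, m2, l1]) ?_ le_rfl le_rfl ?_
    (Real.exp_le_one_iff.2 (by linarith only [hm, m2])) ?_ (by positivity) le_rfl (fun p hp => ?_) ?_
    (by linarith only []) n1 le_rfl n2 n3 ?_ ?_
  · have c : (2 * 10 ^ 8 + 4 * (58 * m + m ^ 2 + 2 + 4)) * e ≤
        225000 * m ^ 2 * Real.exp (-m) ^ 39 := by gcongr; linarith only [hm, l0, m2, l1]
    linarith only [mul_le_mul_of_nonneg_left b (pow_pos l0 38).le, η1, c]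
  · refine le_trans ?_ (mul_le_mul_of_nonneg_right η1 (Real.exp_pos _).le)
    rw [← Real.exp_nat_mul, ← Real.exp_add]
    refine le_trans (mul_le_mul_of_nonneg_right (show 2 ≤ Real.exp 2 by linarith only [l0, l1, e4])
      (Real.exp_pos _).le) ?_
    rw [← Real.exp_add, Real.exp_le_exp]
    push_cast; linarith only [hm, m2]
  · have c1 : Real.exp (m ^ 2) ≤ 4 * (Real.cosh (m ^ 2) - 1) := by
      linarith only [exp_le_cosh (m ^ 2), Real.add_one_le_exp (m ^ 2), hm, l0, m2, l1]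
    have c2 : Real.exp (-(3 / 4 * m ^ 2)) ^ 2 * (Real.exp 2 * Real.exp 2) ≤
        Real.exp (-(58 * m + m ^ 2 + 2)) ^ 2 * Real.exp (m ^ 2) := by
      rw [← Real.exp_nat_mul, ← Real.exp_nat_mul, ← Real.exp_add, ← Real.exp_add, ← Real.exp_add,
        Real.exp_le_exp]
      push_cast; linarith only [hm, m2]
    have c3 : Real.exp (-m ^ 2) ^ 2 ≤ Real.exp (-(3 / 4 * m ^ 2)) ^ 2 := by gcongr
    have c4 : Real.exp (-(3 / 4 * m ^ 2)) ^ 2 * (6 * 6) ≤
      Real.exp (-(3 / 4 * m ^ 2)) ^ 2 * (Real.exp 2 * Real.exp 2) := by gcongr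
    linarith only [mul_le_mul_of_nonneg_left c1 (sq_nonneg (Real.exp (-(58 * m + m ^ 2 + 2)))), sq_nonneg (Real.exp (-(3 / 4 * m ^ 2))), c2, c3, c4]
  · have c1 := exp_le_cosh (dist (pt p (s * α / 2000) (by positivity)) I)
    have c2 := sq_le_sq' (abs_le.1 hp).1 (abs_le.1 hp).2
    have c3 : (s * α / 2000) ^ 2 ≤ (1 / 2000) ^ 2 := by gcongr; linarith only [ρ2]
    rw [cosh_I, pt_re, pt_im, mul_div_assoc', le_div_iff₀ (by positivity)] at c1
    have c4 := mul_le_mul_of_nonneg_left ρ1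
      (Real.exp_pos (dist (pt p (s * α / 2000) (by positivity)) I)).le
    rw [← Real.exp_nat_mul, mul_left_comm, ← Real.exp_add] at c4
    have c5 := Real.exp_le_one_iff.1 (show Real.exp (dist (pt p (s * α / 2000) (by positivity)) I +
      ((29 : ℕ) : ℝ) * -m) ≤ 1 by linarith only [c1, c2, c3, c4])
    push_cast at c5; linarith only [s2, α2, c5]
  · have c : Real.exp (29 * m + 1 - m ^ 2) ≤ Real.exp (-m) := Real.exp_le_exp.2 (by linarith only [hm, l0, m2, l1])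
    linarith only [l0, l1, c]
  · calc _ ≤ Real.exp (-m ^ 2) * (3 * α) := by gcongr
      _ < _ := lt_of_lt_of_le (mul_lt_of_lt_one_right (Real.exp_pos _) (by linarith only [l0, l1, l2, s1, α1])) δ1
  · have c1 := mul_le_mul n5 δ1 (Real.exp_pos _).le (by positivity)
    rw [← Real.exp_add, add_neg_cancel, Real.exp_zero] at c1
    linarith only [mul_le_mul_of_nonneg_left ρ2 s2.le, l1, l2, s1, c1]

theorem core2 (D : Dat r (m ^ 2) e') (hu : NP r (4 * e) (2 * 10 ^ 8 * e) φ g)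
    (ha : NP r (4 * e) (2 * 10 ^ 8 * e) ψ a) (hm : 300 ≤ m) (he : 0 ≤ e)
    (he1 : e ≤ Real.exp (-m) ^ 39) (g1 : 0 < (cA g).re) (g2 : (cB g).im = 0)
    (g3 : |(cA g).im| ≤ (cB g).re / 10) (s0 : Real.exp (-m) ^ 9 ≤ (cB g).re)
    (s1 : (cB g).re ≤ Real.exp (-m) ^ 4) (a00 : |a 0 0 - 1| ≤ |a 0 1| / 10)
    (a11 : |a 1 1 - 1| ≤ |a 0 1| / 10) (a10 : |a 1 0| ≤ |a 0 1|)
    (α0 : Real.exp (-m) ^ 19 ≤ |a 0 1|) (α1 : |a 0 1| ≤ (cB g).re) : False := by
  rcases le_total 0 (a 0 1) with h | h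
  · rw [abs_of_nonneg h] at *
    exact core1 D hu ha hm he he1 g1 g2 g3 s0 s1 a00 a11 a10 α0 α1
  · obtain ⟨f1, f2, f3, f4⟩ := inv_ent a
    rw [abs_of_nonpos h, ← f3] at a00 a11 a10 α0 α1
    exact core1 D hu ha.symm hm he he1 g1 g2 g3 s0 s1 (f1 ▸ a11) (f2 ▸ a00)
      (by rwa [f4, abs_neg]) α0 α1

theorem NP.rot {e e1 : ℝ} (h : NP r e e1 φ g) (θ : ℝ) :
    NP (cr r (rot θ)) e e1 (cj (rot θ) φ) ((rot θ)⁻¹ * g * rot θ) :=
  np_conj h.gd _ (by rw [rot_I]; exact h.n1) (by rw [rot_I]; exact h.n2)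

theorem Dat.false (D : Dat r (m ^ 2) e) (hm : 300 ≤ m) (he : 0 ≤ e)
    (he1 : e ≤ Real.exp (-m) ^ 39) : False := by
  have b := lam_le hm
  have l0 := Real.exp_pos (-m)
  have l1 : 10 ^ 10 * Real.exp (-m) ≤ 1 := by nlinarith only [hm, b]
  have l2 : ∀ n ≠ 0, Real.exp (-m) ^ n ≤ Real.exp (-m) := fun n hn =>
    pow_le_of_le_one l0.le (by linarith) hn
  have he2 : e ≤ 1 / 10 ^ 5 := by linarith [l2 39 (by norm_num)]
  obtain ⟨k, φ, g, hu, g1, g2, g3, s0, s1⟩ := D.pickU he he2 (pow_pos l0 4)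
    (by linarith [l2 4 (by norm_num)])
  replace s0 : Real.exp (-m) ^ 9 ≤ (cB g).re := by
    linarith only [mul_le_mul_of_nonneg_left l1 (pow_pos l0 8).le, pow_pos l0 9, s0]
  have s2 : 0 < (cB g).re := lt_of_lt_of_le (by positivity) s0
  obtain ⟨ψ, a, ha, a00, a11, α0, α1, α2⟩ := (D.conj k).pickA he he2 (τ := (cB g).re / 3)
    (by positivity) (by linarith only [l2 4 (by norm_num), l1, s1])
  replace α0 : Real.exp (-m) ^ 19 ≤ max |a 0 1| |a 1 0| := by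
    have : (Real.exp (-m) ^ 9) ^ 2 ≤ (cB g).re ^ 2 := by gcongr
    linarith only [mul_le_mul_of_nonneg_left l1 (pow_pos l0 18).le, pow_pos l0 19, α0, this]
  rcases le_total |a 1 0| |a 0 1| with h | h
  · rw [max_eq_left h] at α0
    exact core2 (D.conj k) hu ha hm he he1 g1 g2 g3 s0 s1 (by linarith only [a00, h]) (by linarith only [a11, h]) h α0
      (by linarith only [α1])
  · rw [max_eq_right h] at α0
    obtain ⟨c1, c2⟩ := rot_conj g (Real.pi / 2)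
    rw [show 2 * ((Real.pi / 2 : ℝ) : ℂ) * Complex.I = Real.pi * Complex.I by push_cast; ring,
      Complex.exp_pi_mul_I] at c2
    have c3 : cB ((rot (Real.pi / 2))⁻¹ * g * rot (Real.pi / 2))⁻¹ = cB g := by
      rw [cB_inv, c2]; ring
    have d : ∀ i j, ((rot (Real.pi / 2))⁻¹ * a * rot (Real.pi / 2)) i j =
        !![a 1 1, -a 1 0; -a 0 1, a 0 0] i j := fun i j => by
      fin_cases i <;> fin_cases j <;> simp only [rot, Real.cos_pi_div_two, Real.sin_pi_div_two, Fin.zero_eta, Fin.isValue, mul_ent, Matrix.SpecialLinearGroup.coe_inv, Matrix.adjugate_fin_two_of, neg_neg, Matrix.of_apply, Matrix.cons_val', Matrix.cons_val_zero, Matrix.cons_val_fin_one, zero_mul, Matrix.cons_val_one, neg_mul, one_mul, zero_add, mul_zero, mul_neg, mul_one, Fin.mk_one, add_zero]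
    refine core2 ((D.conj k).conj (rot (Real.pi / 2))) (hu.rot _).symm (ha.rot _) hm he he1 ?_ ?_ ?_
      ?_ ?_ ?_ ?_ ?_ ?_ ?_ <;> simp only [c3, cA_inv, c1, d, Complex.conj_re, Complex.conj_im,
        abs_neg, Matrix.of_apply, Matrix.cons_val', Matrix.cons_val_zero, Matrix.cons_val_one,
        Matrix.cons_val_fin_one] <;> linarith only [g1, g2, g3, s0, s1, a11, a00, h, α0, α2]

end Pool.Agent.MP_7dc785_an

end

section

/-!
The bound `K ≥ 1 + c exp (-39 √ℓ)` for closed hyperbolic surfaces of systole `ℓ`.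
-/

namespace Pool.Agent.MP_7dc785_an

open Set Metric UpperHalfPlane
open scoped MatrixGroups

variable {Γ : Subgroup SL(2, ℝ)}

theorem disc_sq (g : SL(2, ℝ)) : disc (g * g) = disc g * (disc g + 4) := by
  simp only [disc, mul_ent]
  linear_combination (4 * ((g 0 0 - g 1 1) ^ 2 + 4 * g 0 1 * g 1 0)) * det_eq g

theorem IsClosedSurface.dat (h : IsClosedSurface Γ) {R K e : ℝ} (hR : Sys Γ R)
    (hR' : ∀ l, R < l → ∃ γ ∈ Γ, ∃ z : ℍ, γ • z ≠ z ∧ dist z (γ • z) < l)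
    (hK : QCHomogeneous Γ K) (he : 0 ≤ e) (he1 : e * (1 + (R + 1 / 2)) ≤ 1 / 2)
    (hq : ∀ φ : ℍ ≃ₜ ℍ, IsQC K φ → QI e φ) : Dat (fun z w => proj Γ z = proj Γ w) R e := by
  have pj : ∀ γ ∈ Γ, ∀ z, proj Γ (γ • z) = proj Γ z := fun γ hγ z => proj_eq.2 ⟨γ, hγ, rfl⟩
  refine ⟨⟨fun _ => rfl, Eq.symm, Eq.trans⟩, fun z w a b => ?_, fun y P w a => ?_, fun y => ?_,
    fun z w => ?_⟩
  · obtain ⟨γ, c, rfl⟩ := proj_eq.1 a
    rw [dist_comm]
    exact hR.2 γ c w b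
  · obtain ⟨γ, c, rfl⟩ := proj_eq.1 a
    exact ⟨γ • w, pj γ c w, dist_smul _ _ _⟩
  · obtain ⟨β, a, w, b, c⟩ := hR' (R + 1 / 2) (by linarith only [])
    obtain ⟨φ, d, γ, f, k, -⟩ := hR.transport hK a w y
    have k1 : dist y (γ • y) ≤ R + 1 := by linarith only [(hq φ d).ub he c.le, he1, k]
    have k2 : γ • y ≠ y := fun t => by
      rw [t, dist_self, eq_comm, dist_eq_zero] at k
      exact b (φ.injective k).symm
    have k3 : 0 < 2 * Real.cosh R - 2 := by linarith only [Real.one_lt_cosh.2 hR.1.ne']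
    have k4 := le_disc (g := γ) k3 fun v => by
      linarith only [cosh_mono hR.1.le (hR.2 γ f v fun t => k2 (h.triv f t y)), dp.eq_1 γ v]
    have k5 := disc_le (γ * γ) (γ⁻¹ • y)
    rw [disc_sq, dp, mul_smul, smul_inv_smul] at k5
    have k6 := Real.cosh_le_cosh.1 (show Real.cosh (2 * R) ≤ Real.cosh (dist (γ⁻¹ • y) (γ • y)) by
      rw [Real.cosh_two_mul, Real.sinh_sq]; nlinarith only [k3, k4, k5])
    rw [abs_of_nonneg dist_nonneg] at k6
    exact ⟨γ⁻¹ • y, γ • y, pj _ (Γ.inv_mem f) y, pj γ f y,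
      by rwa [← dist_smul γ, smul_inv_smul, dist_comm], k1, (le_abs_self _).trans k6⟩
  · obtain ⟨f, φ, a, b, c⟩ := hK (proj Γ z) (proj Γ w)
    obtain ⟨γ, d, k⟩ := proj_eq.1 (c.symm.trans (b z))
    refine ⟨φ.trans (Homeomorph.smul γ), ⟨?_, ?_, fun u v => ?_⟩, k⟩
    · change QI e fun z => γ • φ z
      simpa using (hq φ a).smul γ 1
    · change QI e fun z => φ.symm (γ⁻¹ • z)
      simpa only [one_smul] using (hq _ a.symm).smul 1 γ⁻¹
    · change _ ↔ proj Γ (γ • φ u) = proj Γ (γ • φ v)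
      rw [pj γ d, pj γ d, ← b, ← b, f.injective.eq_iff]

theorem sqrt_bound : ∃ c : ℝ, 0 < c ∧ ∀ Γ : Subgroup SL(2, ℝ), IsClosedSurface Γ →
    ∀ K : ℝ, QCHomogeneous Γ K → ∀ γ ∈ Γ, ∀ z : ℍ, γ • z ≠ z →
      1 + c * Real.exp (-(39 * √(dist z (γ • z)))) ≤ K := by
  obtain ⟨C, hC, HC⟩ := qi_of_qc
  obtain ⟨c, hc, Hc⟩ := systole_bound
  refine ⟨min C⁻¹ (c / ((1 + 90000) * Real.exp (90000 / 2))), by positivity,
    fun Γ h K hK γ hγ z hz => ?_⟩
  obtain ⟨R, hR, hR'⟩ := h.exists_sys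
  have e1 : Real.exp (-(39 * √(dist z (γ • z)))) ≤ 1 :=
    Real.exp_le_one_iff.2 (neg_nonpos.2 (by positivity))
  rcases lt_or_ge R 90000 with h1 | h1
  · obtain ⟨β, a, w, b, d⟩ := hR' _ h1
    refine le_trans (add_le_add_right ?_ 1) (Hc Γ h K hK β a w b)
    refine (mul_le_of_le_one_right (by positivity) e1).trans ((min_le_right _ _).trans ?_)
    gcongr
  refine not_lt.1 fun hlt => ?_
  obtain ⟨m, m0, rfl⟩ : ∃ m, 0 ≤ m ∧ R = m ^ 2 := ⟨√R, Real.sqrt_nonneg _, (Real.sq_sqrt hR.1.le).symm⟩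
  have hm : 300 ≤ m := (abs_le_of_sq_le_sq' (by linarith only [h1]) m0).2
  have l0 := Real.exp_pos (-m)
  have b := lam_le hm
  have l1 : Real.exp (-m) ^ 39 ≤ Real.exp (-m) :=
    pow_le_of_le_one l0.le (by nlinarith only [h1, b]) (by norm_num)
  have hε : K ≤ 1 + C⁻¹ * Real.exp (-m) ^ 39 := by
    refine hlt.le.trans (add_le_add_right (mul_le_mul (min_le_left _ _) ?_ (Real.exp_pos _).le
      (by positivity)) 1)
    rw [← Real.exp_nat_mul, Real.exp_le_exp]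
    have := Real.le_sqrt_of_sq_le (hR.2 γ hγ z hz)
    push_cast; linarith only [this]
  refine (h.dat hR hR' hK (e := Real.exp (-m) ^ 39) (by positivity) ?_ fun φ hφ => ?_).false hm
    (by positivity) le_rfl
  · have : Real.exp (-m) ^ 39 * (1 + (m ^ 2 + 1 / 2)) ≤ Real.exp (-m) * (2 * m ^ 2) := by
      gcongr; linarith only [h1]
    linarith only [b, this]
  · have := HC (C⁻¹ * Real.exp (-m) ^ 39) (by positivity) (by
      rw [mul_inv_cancel_left₀ hC.ne']; nlinarith only [h1, b, l1]) φ (hφ.mono hε)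
    rwa [mul_inv_cancel_left₀ hC.ne'] at this

theorem sqrt_genus : ∃ c : ℝ, 0 < c ∧ ∀ Γ : Subgroup SL(2, ℝ), IsClosedSurface Γ →
    ∀ K : ℝ, QCHomogeneous Γ K → ∀ g : ℕ, 2 ≤ g →
      area Γ ≤ ENNReal.ofReal (4 * Real.pi * (g - 1)) →
        1 + c * Real.exp (-(56 * √(Real.log g))) ≤ K := by
  obtain ⟨c, hc, H⟩ := sqrt_bound
  obtain ⟨a, ha, Ha⟩ := le_vol_ball one_pos
  obtain ⟨b, hb⟩ : ∃ b, b = 1 + 2 * Real.log (16 / a + 3) := ⟨_, rfl⟩
  have hb0 : 0 ≤ b := by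
    have : 0 < 16 / a := by positivity
    linarith only [Real.log_nonneg (show 1 ≤ 16 / a + 3 by linarith only [this]), hb]
  refine ⟨c * Real.exp (-(39 * √b)), by positivity, fun Γ h K hK g hg hA => ?_⟩
  obtain ⟨R, hR, hR'⟩ := h.exists_sys
  obtain ⟨γ, hγ, z, h1, h2⟩ := hR' (R + 1) (by linarith only [])
  have hg' : (2 : ℝ) ≤ g := by exact_mod_cast hg
  have h3 : Real.exp (R / 2) ≤ (16 / a + 3) * g := by
    have h4 : 0 < 16 / a * g := by positivity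
    rcases le_total 1 (R / 2) with h5 | h5
    · have h6 := (ENNReal.ofReal_le_ofReal_iff (mul_nonneg (by positivity) (by linarith only [hg']))).1
        ((Ha _ h5).trans ((h.ball_le hR).trans hA))
      have h7 : Real.exp (R / 2) ≤ 16 / a * g := by
        rw [div_mul_eq_mul_div, le_div_iff₀ ha]
        nlinarith only [Real.pi_le_four, Real.pi_pos, h6]
      linarith only [h7]
    · linarith only [Real.exp_le_exp.2 h5, Real.exp_one_lt_d9, hg', h4]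
  rw [← Real.le_log_iff_exp_le (by positivity), Real.log_mul (by positivity) (by positivity)] at h3
  have h5 := Real.log_nonneg (show (1 : ℝ) ≤ g by linarith only [hg'])
  have h6 : √(dist z (γ • z)) ≤ √b + 56 / 39 * √(Real.log g) :=
    Real.sqrt_le_iff.2 ⟨by positivity, by
      nlinarith only [Real.sq_sqrt hb0, Real.sq_sqrt h5, mul_nonneg (Real.sqrt_nonneg b) (Real.sqrt_nonneg (Real.log g)), hb, h2, h3]⟩
  refine le_trans (add_le_add_right ?_ 1) (H Γ h K hK γ hγ z h1)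
  rw [mul_assoc, ← Real.exp_add]
  gcongr
  linarith only [h6]

end Pool.Agent.MP_7dc785_an

end
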